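import Pool.Agent.Helper26.Dil.Aff3
import Pool.Agent.Helper73.Dil.Mem

/-!
Module S_AFF: action of the affine automorphisms.
-/

open Topology Set Filter MeasureTheory Metric

namespace Pool.Agent.Helper26.Dil

open Pool.Agent.Helper73.Dil Pool.Agent.Helper73.Dil.DilationSurface

universe u

section
variable {X : Type u} [TopologicalSpace X] {D : DilationSurface X}

/-- the exact forms -/
def gen [MeasurableSpace X] (R : D.Ref) : Set (R.H × R.H) :=
  {α : R.H × R.H | ∃ ψ, D.IsTest ψ ∧ α.1 =ᵐ[R.mu] R.gx (fun _ => ψ) ∧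
    α.2 =ᵐ[R.mu] R.gy (fun _ => ψ)}

theorem isTest_comp {φ : X ≃ₜ X} {γ : G} (hφ : D.IsAffineAut φ γ) {ψ : X → ℂ}
    (hψ : D.IsTest ψ) : D.IsTest fun x => ψ (φ x) := by
  refine ⟨fun e he x hx => ?_, fun p hp => ?_⟩
  · obtain ⟨e', he', hx'⟩ := exists_chart (regular_map hφ (he.1 x hx))
    obtain ⟨a, h⟩ := exists_affAt hφ he he' hx hx'
    exact contDiffAt_comp hx hx' h (hψ.1 e' he' (φ x) hx')
  · exact φ.continuous.continuousAt.eventually (hψ.2 (φ p) ((hφ.1 p).2 hp))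

theorem diff_chart (R : D.Ref) (F : D.Twist) {x : X} (hx : x ∉ D.cone) :
    DifferentiableAt ℝ (F.F (R.ch x) ∘ (R.ch x).symm) (R.ch x x) :=
  (F.smooth _ (Ref.isChart_ch R x) x (Ref.mem_ch R hx)).differentiableAt (by norm_num)

/-- pull backs of exact forms are exact -/
theorem pull_gen [MeasurableSpace X] [OpensMeasurableSpace X] (R : D.Ref) {φ : X ≃ₜ X} {γ : G}
    (hφ : D.IsAffineAut φ γ) (hcone : ∀ᵐ x ∂(R.mu), x ∉ D.cone)
    (hwc : ∀ f g : X → ℂ, f =ᵐ[R.mu] g →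
      (fun x => (kap R φ γ x : ℂ) * f (φ x)) =ᵐ[R.mu] fun x => (kap R φ γ x : ℂ) * g (φ x))
    (T : R.H ≃ₗᵢ[ℂ] R.H)
    (hT : ∀ f : R.H, T f =ᵐ[R.mu] fun x => (kap R φ γ x : ℂ) * f (φ x)) {α : R.H × R.H}
    (hα : α ∈ gen R) : pull T γ α ∈ gen R := by
  obtain ⟨ψ, hψ, h1, h2⟩ := hα
  refine ⟨fun x => ψ (φ x), isTest_comp hφ hψ, ?_, ?_⟩
  · filter_upwards [hcone, hT α.1, hT α.2, hwc _ _ h1, hwc _ _ h2,
      Lp.coeFn_add ((γ.1 0 0 : ℂ) • T α.1) ((γ.1 1 0 : ℂ) • T α.2),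
      Lp.coeFn_smul (γ.1 0 0 : ℂ) (T α.1), Lp.coeFn_smul (γ.1 1 0 : ℂ) (T α.2)]
      with x hx h3 h4 h5 h6 h7 h8 h9
    have hg := (grad_aff R (F := fun _ => ψ) (F' := fun _ x => ψ (φ x)) hφ hx (k := 0)
      (Eventually.of_forall fun y => by simp)
      (diff_chart R (testTwist hψ) (regular_map hφ hx))).1
    change (((γ.1 0 0 : ℂ) • T α.1 + (γ.1 1 0 : ℂ) • T α.2 : R.H) : X → ℂ) x = _
    rw [h7, Pi.add_apply, h8, h9, Pi.smul_apply, Pi.smul_apply, h3, h4, h5, h6, hg]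
    simp only [smul_eq_mul]
    ring
  · filter_upwards [hcone, hT α.1, hT α.2, hwc _ _ h1, hwc _ _ h2,
      Lp.coeFn_add ((γ.1 0 1 : ℂ) • T α.1) ((γ.1 1 1 : ℂ) • T α.2),
      Lp.coeFn_smul (γ.1 0 1 : ℂ) (T α.1), Lp.coeFn_smul (γ.1 1 1 : ℂ) (T α.2)]
      with x hx h3 h4 h5 h6 h7 h8 h9
    have hg := (grad_aff R (F := fun _ => ψ) (F' := fun _ x => ψ (φ x)) hφ hx (k := 0)
      (Eventually.of_forall fun y => by simp)
      (diff_chart R (testTwist hψ) (regular_map hφ hx))).2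
    change (((γ.1 0 1 : ℂ) • T α.1 + (γ.1 1 1 : ℂ) • T α.2 : R.H) : X → ℂ) x = _
    rw [h7, Pi.add_apply, h8, h9, Pi.smul_apply, Pi.smul_apply, h3, h4, h5, h6, hg]
    simp only [smul_eq_mul]
    ring

/-- pull back as a linear map -/
noncomputable def pullL {H : Type*} [NormedAddCommGroup H] [InnerProductSpace ℂ H]
    (T : H ≃ₗᵢ[ℂ] H) (γ : G) : (H × H) →ₗ[ℂ] (H × H) where
  toFun := pull T γ
  map_add' α β := by
    simp only [pull, Prod.fst_add, Prod.snd_add, map_add, smul_add]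
    refine Prod.ext ?_ ?_
    · simp only [Prod.fst_add]; abel
    · simp only [Prod.snd_add]; abel
  map_smul' c α := by
    simp only [pull, Prod.smul_fst, Prod.smul_snd, map_smul, RingHom.id_apply]
    refine Prod.ext ?_ ?_
    · simp only [Prod.smul_fst, smul_add]
      rw [smul_comm c, smul_comm c]
    · simp only [Prod.smul_snd, smul_add]
      rw [smul_comm c, smul_comm c]

theorem pullL_continuous {H : Type*} [NormedAddCommGroup H] [InnerProductSpace ℂ H]
    (T : H ≃ₗᵢ[ℂ] H) (γ : G) : Continuous (pullL T γ) := by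
  change Continuous (pull T γ)
  unfold pull
  have h1 : Continuous fun α : H × H => T α.1 := T.continuous.comp continuous_fst
  have h2 : Continuous fun α : H × H => T α.2 := T.continuous.comp continuous_snd
  fun_prop

theorem pull_symm_pull {H : Type*} [NormedAddCommGroup H] [InnerProductSpace ℂ H]
    (T : H ≃ₗᵢ[ℂ] H) (γ : G) (α : H × H) : pull T.symm γ⁻¹ (pull T γ α) = α := by
  have hd := det_eq' γ
  have h00 : (γ⁻¹ : G).1 0 0 = γ.1 1 1 := by
    simp [Matrix.SpecialLinearGroup.coe_inv, Matrix.adjugate_fin_two]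
  have h01 : (γ⁻¹ : G).1 0 1 = -γ.1 0 1 := by
    simp [Matrix.SpecialLinearGroup.coe_inv, Matrix.adjugate_fin_two]
  have h10 : (γ⁻¹ : G).1 1 0 = -γ.1 1 0 := by
    simp [Matrix.SpecialLinearGroup.coe_inv, Matrix.adjugate_fin_two]
  have h11 : (γ⁻¹ : G).1 1 1 = γ.1 0 0 := by
    simp [Matrix.SpecialLinearGroup.coe_inv, Matrix.adjugate_fin_two]
  have hdc : (γ.1 0 0 : ℂ) * γ.1 1 1 - γ.1 0 1 * γ.1 1 0 = 1 := by exact_mod_cast hd
  simp only [pull, h00, h01, h10, h11, map_add, map_smul, LinearIsometryEquiv.symm_apply_apply]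
  refine Prod.ext ?_ ?_
  · push_cast
    have h5 : ∀ a b c d : ℂ, ∀ x y : H,
        d • (a • x + c • y) + (-c) • (b • x + d • y) = (a * d - b * c) • x := by
      intro a b c d x y
      module
    rw [h5, hdc, one_smul]
  · push_cast
    have h5 : ∀ a b c d : ℂ, ∀ x y : H,
        (-b) • (a • x + c • y) + a • (b • x + d • y) = (a * d - b * c) • y := by
      intro a b c d x y
      module
    rw [h5, hdc, one_smul]

theorem pull_mem_E [MeasurableSpace X] (R : D.Ref) (T : R.H ≃ₗᵢ[ℂ] R.H) (γ : G)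
    (h : ∀ α ∈ gen R, pull T γ α ∈ gen R) {α : R.H × R.H} (hα : α ∈ R.E) :
    pull T γ α ∈ R.E := by
  have h1 : R.E ≤ R.E.comap (pullL T γ) := by
    refine Submodule.topologicalClosure_minimal _ ?_ ?_
    · rw [Submodule.span_le]
      intro β hβ
      exact Submodule.le_topologicalClosure _ (Submodule.subset_span (h β hβ))
    · exact (Submodule.isClosed_topologicalClosure _).preimage (pullL_continuous T γ)
  exact h1 hα

theorem gen_subset_E [MeasurableSpace X] (R : D.Ref) {α : R.H × R.H} (hα : α ∈ gen R) :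
    α ∈ R.E := Submodule.le_topologicalClosure _ (Submodule.subset_span hα)

end

/-! ### holomorphic charts -/

theorem tc_add (t z w : ℂ) : tc t (z + w) = tc t z + tc t w := by
  simp [tc]; ring

theorem tc_smul (t : ℂ) (a : ℝ) (z : ℂ) : tc t (a * z) = a * tc t z := by
  simp [tc]; ring

theorem den_ne (g : G) : ((g.1 0 0 : ℂ) + Complex.I * g.1 1 0) ≠ 0 := by
  intro h
  have h1 := congrArg Complex.re h
  have h2 := congrArg Complex.im h
  simp at h1 h2
  have := det_eq' g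
  rw [h1, h2] at this
  simp at this

/-- the action on `tau` -/
theorem tau_mul (g γ : G) : ((γ.1 0 0 : ℂ) + tau g * γ.1 1 0) * tau (g * γ) =
    γ.1 0 1 + tau g * γ.1 1 1 ∧ (γ.1 0 0 : ℂ) + tau g * γ.1 1 0 ≠ 0 := by
  have h1 := den_ne g
  have h2 := den_ne (g * γ)
  have e00 : (g * γ).1 0 0 = g.1 0 0 * γ.1 0 0 + g.1 0 1 * γ.1 1 0 := by
    simp [Matrix.mul_apply, Fin.sum_univ_two]
  have e01 : (g * γ).1 0 1 = g.1 0 0 * γ.1 0 1 + g.1 0 1 * γ.1 1 1 := by
    simp [Matrix.mul_apply, Fin.sum_univ_two]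
  have e10 : (g * γ).1 1 0 = g.1 1 0 * γ.1 0 0 + g.1 1 1 * γ.1 1 0 := by
    simp [Matrix.mul_apply, Fin.sum_univ_two]
  have e11 : (g * γ).1 1 1 = g.1 1 0 * γ.1 0 1 + g.1 1 1 * γ.1 1 1 := by
    simp [Matrix.mul_apply, Fin.sum_univ_two]
  rw [e00, e10] at h2
  push_cast at h2
  have h3 : ((g.1 0 0 : ℂ) + Complex.I * g.1 1 0) * ((γ.1 0 0 : ℂ) + tau g * γ.1 1 0) =
      (g.1 0 0 * γ.1 0 0 + g.1 0 1 * γ.1 1 0) + Complex.I *
        (g.1 1 0 * γ.1 0 0 + g.1 1 1 * γ.1 1 0) := by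
    rw [tau]
    field_simp
    ring
  have h4 : (γ.1 0 0 : ℂ) + tau g * γ.1 1 0 ≠ 0 := by
    intro h
    rw [h, mul_zero] at h3
    exact h2 h3.symm
  refine ⟨?_, h4⟩
  refine mul_left_cancel₀ h1 ?_
  rw [← mul_assoc, h3]
  have h5 : tau (g * γ) = (((g.1 0 0 * γ.1 0 1 + g.1 0 1 * γ.1 1 1 : ℝ) : ℂ) + Complex.I *
      ((g.1 1 0 * γ.1 0 1 + g.1 1 1 * γ.1 1 1 : ℝ) : ℂ)) /
      (((g.1 0 0 * γ.1 0 0 + g.1 0 1 * γ.1 1 0 : ℝ) : ℂ) + Complex.I *
        ((g.1 1 0 * γ.1 0 0 + g.1 1 1 * γ.1 1 0 : ℝ) : ℂ)) := by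
    rw [tau, e00, e01, e10, e11]
  rw [h5, tau]
  push_cast
  rw [mul_div_cancel₀ _ h2]
  field_simp
  ring

/-- the linear map in the complex coordinates -/
theorem tc_lin (g γ : G) (z : ℂ) : tc (tau g) (lin γ z) =
    ((γ.1 0 0 : ℂ) + tau g * γ.1 1 0) * tc (tau (g * γ)) z := by
  have h := (tau_mul g γ).1
  have h1 : ((γ.1 0 0 : ℂ) + tau g * γ.1 1 0) * tc (tau (g * γ)) z =
      ((γ.1 0 0 : ℂ) + tau g * γ.1 1 0) * z.re +
      (((γ.1 0 0 : ℂ) + tau g * γ.1 1 0) * tau (g * γ)) * z.im := by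
    rw [tc]; ring
  rw [h1, h]
  simp [tc, lin]
  ring

theorem tc_tau_lin (g : G) (z : ℂ) :
    ((g.1 0 0 : ℂ) + Complex.I * g.1 1 0) * tc (tau g) z = lin g z := by
  have h := den_ne g
  have h1 : lin g z = (g.1 0 0 + Complex.I * g.1 1 0) * z.re +
      (g.1 0 1 + Complex.I * g.1 1 1) * z.im := by
    apply Complex.ext <;> simp [lin]
  rw [h1, tc, tau]
  field_simp

theorem isOpen_tc (g : G) : IsOpen (tc (tau g) '' B1) := by
  have h := den_ne g
  have h1 : tc (tau g) '' B1 =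
      (fun ζ : ℂ => lin g⁻¹ (((g.1 0 0 : ℂ) + Complex.I * g.1 1 0) * ζ)) ⁻¹' B1 := by
    ext ζ
    constructor
    · rintro ⟨z, hz, rfl⟩
      simp only [mem_preimage]
      rw [tc_tau_lin, ← lin_mul, inv_mul_cancel, lin_one]
      exact hz
    · intro hζ
      refine ⟨_, hζ, ?_⟩
      refine mul_left_cancel₀ h ?_
      rw [tc_tau_lin, ← lin_mul, mul_inv_cancel, lin_one]
  rw [h1]
  exact isOpen_ball.preimage ((lin_continuous g⁻¹).comp (continuous_const.mul continuous_id))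

theorem qmp_aff {γ : G} {a : ℝ} (ha : a ≠ 0) (β : ℂ) :
    Measure.QuasiMeasurePreserving (fun z : ℂ => (a : ℂ) * lin γ z + β) volume volume := by
  have hm : Measurable fun z : ℂ => (a : ℂ) * lin γ z + β :=
    ((continuous_const.mul (lin_continuous γ)).add continuous_const).measurable
  refine ⟨hm, ?_⟩
  refine Measure.AbsolutelyContinuous.mk fun s hs h0 => ?_
  rw [Measure.map_apply hm hs]
  have h1 := lintegral_aff (γ := γ) ha β MeasurableSet.univ (s.indicator 1)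
  have h2 : ∫⁻ w in (fun w : ℂ => (a : ℂ) * lin γ w + β) '' univ, s.indicator 1 w = 0 := by
    refine le_antisymm ?_ zero_le
    refine (lintegral_mono' Measure.restrict_le_self le_rfl).trans ?_
    rw [lintegral_indicator_one hs, h0]
  rw [h2, Measure.restrict_univ] at h1
  have hme : AEMeasurable (fun z : ℂ => s.indicator (1 : ℂ → ENNReal) (a * lin γ z + β) *
      ENNReal.ofReal (a ^ 2)) volume :=
    (((measurable_one.indicator hs).comp hm).mul measurable_const).aemeasurable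
  have h3 := (lintegral_eq_zero_iff' hme).1 h1.symm
  rw [measure_eq_zero_iff_ae_notMem]
  filter_upwards [h3] with z hz hzs
  have h4 : (0 : ℝ) < a ^ 2 := by positivity
  have h5 : ENNReal.ofReal (a ^ 2) ≠ 0 := by
    rw [Ne, ENNReal.ofReal_eq_zero]; linarith
  have h6 : s.indicator (1 : ℂ → ENNReal) (a * lin γ z + β) = 1 :=
    indicator_of_mem (show (a : ℂ) * lin γ z + β ∈ s from hzs) _
  change s.indicator (1 : ℂ → ENNReal) (a * lin γ z + β) * ENNReal.ofReal (a ^ 2) = 0 at hz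
  rw [h6, one_mul] at hz
  exact h5 hz

section
variable {X : Type u} [TopologicalSpace X] {D : DilationSurface X}

/-- pull back of a solution in a good pair of balls -/
theorem sol_pull [MeasurableSpace X] (R : D.Ref) (S : D.Scale) {φ : X ≃ₜ X} {γ : G}
    (hφ : D.IsAffineAut φ γ) (g : G) {c c' : R.H} {f j : X → ℝ}
    (hj : ∀ x, x ∉ D.cone → j x = jz R S φ γ x)
    {b b' : OpenPartialHomeomorph X ℂ} {a : ℝ} {β : ℂ} (hb : D.IsBall b) (hb' : D.IsBall b')
    (ha : a ≠ 0) (hab : ∀ y ∈ b.source, φ y ∈ b'.source ∧ b' (φ y) = a * lin γ (b y) + β)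
    (hc' : R.loc b c' =ᵐ[volume.restrict B1] R.loc b fun x =>
      ((γ.1 0 0 : ℂ) + tau g * γ.1 1 0) * ((kap R φ γ x : ℂ) * c (φ x)))
    (hsol : R.SolOn S (tau g) c f b') :
    R.SolOn S (tau (g * γ)) c' (fun x => f (φ x) + j x) b := by
  obtain ⟨w, hw1, hw2, hw3⟩ := hsol
  set m : ℂ := (γ.1 0 0 : ℂ) + tau g * γ.1 1 0 with hm
  have hm0 : m ≠ 0 := (tau_mul g γ).2
  have hac : (a : ℂ) ≠ 0 := by exact_mod_cast ha
  -- the affine map in the unit disc
  have hA : ∀ z ∈ B1, b'.symm (a * lin γ z + β) = φ (b.symm z) ∧ (a : ℂ) * lin γ z + β ∈ B1 := by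
    intro z hz
    have h1 := hab (b.symm z) (ball_symm_mem hb hz)
    rw [ball_right_inv hb hz] at h1
    refine ⟨by rw [← h1.2, b'.left_inv h1.1], ?_⟩
    rw [← h1.2, ← hb'.2]
    exact b'.map_source h1.1
  -- the affine map in the complex coordinate
  have htc : ∀ z : ℂ, a * m * tc (tau (g * γ)) z + tc (tau g) β =
      tc (tau g) (a * lin γ z + β) := by
    intro z
    rw [tc_add, tc_smul, tc_lin g γ z]
    ring
  have hopen := isOpen_tc g
  refine ⟨fun ζ => w (a * m * ζ + tc (tau g) β) - (Real.log |a| : ℂ), ?_, ?_, ?_⟩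
  · rintro _ ⟨z, hz, rfl⟩
    have h1 : tc (tau g) (a * lin γ z + β) ∈ tc (tau g) '' B1 := mem_image_of_mem _ (hA z hz).2
    have h2 := (hw1 _ h1).differentiableAt (hopen.mem_nhds h1)
    rw [← htc z] at h2
    have h3 : DifferentiableAt ℂ (fun ζ : ℂ => a * m * ζ + tc (tau g) β) (tc (tau (g * γ)) z) := by
      fun_prop
    have h4 : DifferentiableAt ℂ (w ∘ fun ζ : ℂ => a * m * ζ + tc (tau g) β)
        (tc (tau (g * γ)) z) := DifferentiableAt.comp (tc (tau (g * γ)) z) h2 h3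
    exact (h4.sub_const _).differentiableWithinAt
  · have hae : ∀ᵐ z ∂(volume.restrict B1), R.loc b' c (a * lin γ z + β) =
        deriv w (tc (tau g) (a * lin γ z + β)) := by
      have hB : MeasurableSet B1 := isOpen_ball.measurableSet
      have h0 : ∀ᵐ z ∂(volume : Measure ℂ), z ∈ B1 → R.loc b' c z = deriv w (tc (tau g) z) :=
        (ae_restrict_iff' hB).1 hw2
      have h1 := (qmp_aff (γ := γ) ha β).ae h0
      rw [ae_restrict_iff' hB]
      filter_upwards [h1] with z hz hzB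
      exact hz (hA z hzB).2
    have hB : ∀ᵐ z ∂(volume.restrict B1), z ∈ B1 := ae_restrict_mem isOpen_ball.measurableSet
    filter_upwards [hc', hae, hB] with z h1 h2 hz
    have h3 : tc (tau g) (a * lin γ z + β) ∈ tc (tau g) '' B1 := mem_image_of_mem _ (hA z hz).2
    have h4 := (hw1 _ h3).differentiableAt (hopen.mem_nhds h3)
    have h5 : HasDerivAt (fun ζ : ℂ => a * m * ζ + tc (tau g) β) (a * m)
        (tc (tau (g * γ)) z) := by
      have := ((hasDerivAt_id (tc (tau (g * γ)) z)).const_mul ((a : ℂ) * m)).add_const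
        (tc (tau g) β)
      simpa using this
    rw [← htc z] at h4
    have h6 := (HasDerivAt.comp (tc (tau (g * γ)) z) h4.hasDerivAt h5).sub_const
      (Real.log |a| : ℂ)
    have h7 : deriv (fun ζ => w (a * m * ζ + tc (tau g) β) - (Real.log |a| : ℂ))
        (tc (tau (g * γ)) z) = deriv w (a * m * tc (tau (g * γ)) z + tc (tau g) β) * (a * m) :=
      h6.deriv
    rw [h1, h7, htc z, ← h2, Ref.loc, Ref.loc, (hA z hz).1]
    have hx := ball_symm_mem hb hz
    have h8 := hab (b.symm z) hx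
    have h9 := kap_mul_rat R hφ hb.1 hb'.1 hx h8.1 (affAt_of_good ha hab hx)
    have h10 : (kap R φ γ (b.symm z) : ℂ) * rat b (R.ch (b.symm z)) (b.symm z) =
        a * rat b' (R.ch (φ (b.symm z))) (φ (b.symm z)) := by exact_mod_cast h9
    calc (rat b (R.ch (b.symm z)) (b.symm z) : ℂ) *
          (m * ((kap R φ γ (b.symm z) : ℂ) * c (φ (b.symm z))))
        = m * (((kap R φ γ (b.symm z) : ℂ) * rat b (R.ch (b.symm z)) (b.symm z)) *
          c (φ (b.symm z))) := by ring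
      _ = _ := by rw [h10]; ring
  · intro z hz
    have h1 := hw3 (a * lin γ z + β) (hA z hz).2
    rw [(hA z hz).1] at h1
    have hreg := ball_symm_reg hb hz
    have h2 := hab (b.symm z) (ball_symm_mem hb hz)
    have h3 := jz_eq R S hφ hb.1 hb'.1 (ball_symm_mem hb hz) h2.1
      (affAt_of_good ha hab (ball_symm_mem hb hz))
    change S.u b (b.symm z) + (f (φ (b.symm z)) + j (b.symm z)) =
      (w (a * m * tc (tau (g * γ)) z + tc (tau g) β) - (Real.log |a| : ℂ)).re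
    rw [hj _ hreg, h3, htc z, Complex.sub_re, ← h1, Complex.ofReal_re]
    ring

end

/-- the module `S_AFF` -/
theorem sb_AFF (hM : SB_MEAS.{u}) (hL : SB_LOCL.{u}) (hG : SB_GLUE.{u}) : SB_AFF.{u} := by
  intro X _ _ _ _ _ _ D R S A φ γ hA hφ
  obtain ⟨hAE, hAv, hAJ⟩ := hA
  obtain ⟨hm1, -, -, -, hm5, -⟩ := hM X D R
  have hcone : ∀ᵐ x ∂(R.mu), x ∉ D.cone := measure_eq_zero_iff_ae_notMem.1 hm1
  have hwc := wc_kap hM R hφ
  have hwc' : ∀ f g : X → ℂ, f =ᵐ[R.mu] g →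
      (fun x => (kap R φ γ x : ℂ) * f (φ x)) =ᵐ[R.mu] fun x => (kap R φ γ x : ℂ) * g (φ x) :=
    fun f g hfg => hwc.congr hfg
  obtain ⟨T, hT⟩ := exists_wcomp hwc
  have hT' : ∀ f : R.H, T f =ᵐ[R.mu] fun x => (kap R φ γ x : ℂ) * f (φ x) := hT
  obtain ⟨j, hjc, hjt, hj⟩ := exists_j R S hφ
  -- the inverse
  have hφs := D.isAffineAut_inv hφ
  have hwcs := wc_kap hM R hφs
  have hwcs' : ∀ f g : X → ℂ, f =ᵐ[R.mu] g →
      (fun x => (kap R φ.symm γ⁻¹ x : ℂ) * f (φ.symm x)) =ᵐ[R.mu]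
        fun x => (kap R φ.symm γ⁻¹ x : ℂ) * g (φ.symm x) :=
    fun f g hfg => hwcs.congr hfg
  have hTs : ∀ f : R.H, T.symm f =ᵐ[R.mu] fun x => (kap R φ.symm γ⁻¹ x : ℂ) * f (φ.symm x) := by
    obtain ⟨T', hT1⟩ := exists_wcomp hwcs
    have hT1' : ∀ f : R.H, T' f =ᵐ[R.mu] fun x => (kap R φ.symm γ⁻¹ x : ℂ) * f (φ.symm x) := hT1
    intro f
    have h1 : T (T' f) = f := by
      apply Lp.ext
      filter_upwards [hcone, hT' (T' f), hwc' _ _ (hT1' f)] with x hx h1 h2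
      rw [h1, h2, φ.symm_apply_apply]
      have h3 := (kap_spec R hφ hx).symm
      have h4 : kap R φ.symm γ⁻¹ (φ x) = (kap R φ γ x)⁻¹ := by
        have hx' := regular_map hφ hx
        refine kap_eq R hφs hx' ?_
        rw [φ.symm_apply_apply]
        exact h3
      have h5 : (kap R φ γ x : ℂ) ≠ 0 := by exact_mod_cast kap_ne_zero R φ γ x
      rw [h4]
      push_cast
      field_simp
    have h2 : T.symm f = T' f := by
      rw [← h1, T.symm_apply_apply, h1]
    rw [h2]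
    exact hT1' f
  refine ⟨T, j, hjc, hjt, ?_, ?_, ?_, ?_, ?_⟩
  · intro f
    apply Lp.ext
    filter_upwards [hT' (A.J.c f), hwc' _ _ (hAJ f), hAJ (T f), hT' f] with x h1 h2 h3 h4
    rw [h1, h2, h3, h4, map_mul, Complex.conj_ofReal]
  · intro α
    rw [hAE]
    constructor
    · intro h
      exact pull_mem_E R T γ (fun β hβ => pull_gen R hφ hcone hwc' T hT' hβ) h
    · intro h
      have h1 := pull_mem_E R T.symm γ⁻¹
        (fun β hβ => pull_gen R hφs hcone hwcs' T.symm hTs hβ) h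
      rwa [pull_symm_pull] at h1
  · rw [hAE]
    apply gen_subset_E
    obtain ⟨hv1, hv2⟩ := hAv
    have hsum : ∀ x, x ∉ D.cone →
        (R.gx (fun e y => (j y : ℂ) + (S.u e y : ℂ)) x =
          R.gx (fun _ y => (j y : ℂ)) x + R.gx (fun e y => (S.u e y : ℂ)) x) ∧
        (R.gy (fun e y => (j y : ℂ) + (S.u e y : ℂ)) x =
          R.gy (fun _ y => (j y : ℂ)) x + R.gy (fun e y => (S.u e y : ℂ)) x) := by
      intro x hx
      have h1 := diff_chart R (testTwist hjt) hx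
      have h2 := diff_chart R (scaleTwist S) hx
      have h3 : fderiv ℝ ((fun y => (j y : ℂ) + (S.u (R.ch x) y : ℂ)) ∘ (R.ch x).symm)
          (R.ch x x) = fderiv ℝ ((fun y => (j y : ℂ)) ∘ (R.ch x).symm) (R.ch x x) +
            fderiv ℝ ((fun y => (S.u (R.ch x) y : ℂ)) ∘ (R.ch x).symm) (R.ch x x) :=
        fderiv_add h1 h2
      constructor
      · rw [Ref.gx, Ref.gx, Ref.gx, dx, dx, dx, h3]
        rfl
      · rw [Ref.gy, Ref.gy, Ref.gy, dy, dy, dy, h3]
        rfl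
    have hgr : ∀ x, x ∉ D.cone → _ := fun x hx =>
      grad_aff R (F := fun e y => (S.u e y : ℂ)) (F' := fun e y => (j y : ℂ) + (S.u e y : ℂ))
        hφ hx (k := -((Real.log |kap R φ γ x| : ℝ) : ℂ)) (by
          have h1 := jz_eventually R S hφ (Ref.isChart_ch R x) (Ref.isChart_ch R (φ x))
            (Ref.mem_ch R hx) (Ref.mem_ch R (regular_map hφ hx)) (kap_spec R hφ hx)
          have h2 : (D.cone)ᶜ ∈ 𝓝 x := D.cone_finite.isClosed.isOpen_compl.mem_nhds hx
          filter_upwards [h1, h2] with y hy hyc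
          rw [hj y hyc, hy]
          push_cast
          ring)
        (diff_chart R (scaleTwist S) (regular_map hφ hx))
    refine ⟨fun x => (j x : ℂ), hjt, ?_, ?_⟩
    · filter_upwards [hcone, hT' A.v.1, hT' A.v.2, hwc' _ _ hv1, hwc' _ _ hv2, hv1,
        Lp.coeFn_add ((γ.1 0 0 : ℂ) • T A.v.1) ((γ.1 1 0 : ℂ) • T A.v.2),
        Lp.coeFn_smul (γ.1 0 0 : ℂ) (T A.v.1), Lp.coeFn_smul (γ.1 1 0 : ℂ) (T A.v.2),
        Lp.coeFn_sub ((γ.1 0 0 : ℂ) • T A.v.1 + (γ.1 1 0 : ℂ) • T A.v.2) A.v.1]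
        with x hx h3 h4 h5 h6 hv h7 h8 h9 h10
      have hg := (hgr x hx).1
      rw [(hsum x hx).1] at hg
      change (((γ.1 0 0 : ℂ) • T A.v.1 + (γ.1 1 0 : ℂ) • T A.v.2 - A.v.1 : R.H) : X → ℂ) x = _
      rw [h10, Pi.sub_apply, h7, Pi.add_apply, h8, h9, Pi.smul_apply, Pi.smul_apply, h3, h4, h5,
        h6, hv]
      simp only [smul_eq_mul]
      rw [← add_sub_cancel_right (R.gx (fun _ y => (j y : ℂ)) x)
        (R.gx (fun e y => (S.u e y : ℂ)) x), hg]
      ring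
    · filter_upwards [hcone, hT' A.v.1, hT' A.v.2, hwc' _ _ hv1, hwc' _ _ hv2, hv2,
        Lp.coeFn_add ((γ.1 0 1 : ℂ) • T A.v.1) ((γ.1 1 1 : ℂ) • T A.v.2),
        Lp.coeFn_smul (γ.1 0 1 : ℂ) (T A.v.1), Lp.coeFn_smul (γ.1 1 1 : ℂ) (T A.v.2),
        Lp.coeFn_sub ((γ.1 0 1 : ℂ) • T A.v.1 + (γ.1 1 1 : ℂ) • T A.v.2) A.v.2]
        with x hx h3 h4 h5 h6 hv h7 h8 h9 h10
      have hg := (hgr x hx).2
      rw [(hsum x hx).2] at hg
      change (((γ.1 0 1 : ℂ) • T A.v.1 + (γ.1 1 1 : ℂ) • T A.v.2 - A.v.2 : R.H) : X → ℂ) x = _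
      rw [h10, Pi.sub_apply, h7, Pi.add_apply, h8, h9, Pi.smul_apply, Pi.smul_apply, h3, h4, h5,
        h6, hv]
      simp only [smul_eq_mul]
      rw [← add_sub_cancel_right (R.gy (fun _ y => (j y : ℂ)) x)
        (R.gy (fun e y => (S.u e y : ℂ)) x), hg]
      ring
  · -- the smooth area measure
    intro F hF
    have hum : Measurable fun x => ((S.u (R.ch x) x : ℝ) : ℂ) := by
      refine measurable_pieces R hm5 (g := fun n x => ((S.u (R.B n) x : ℝ) : ℂ)) (fun n => ?_)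
        (fun x _ => rfl)
      intro x hx
      have h1 : ContinuousAt ((fun y => (S.u (R.B n) y : ℂ)) ∘ (R.B n).symm) (R.B n x) :=
        (S.smooth (R.B n) (R.ball n).1 x hx).continuousAt
      have h2 : ContinuousAt (((fun y => (S.u (R.B n) y : ℂ)) ∘ (R.B n).symm) ∘ R.B n) x :=
        ContinuousAt.comp h1 ((R.B n).continuousAt hx)
      have h3 : ContinuousAt (fun y => (S.u (R.B n) y : ℂ)) x := by
        refine h2.congr ?_
        filter_upwards [(R.B n).open_source.mem_nhds hx] with y hy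
        simp only [Function.comp_apply]
        rw [(R.B n).left_inv hy]
      exact h3.continuousWithinAt
    have hur : Measurable fun x => S.u (R.ch x) x := by
      have := Complex.measurable_re.comp hum
      exact this
    have hd : Measurable fun x => ENNReal.ofReal (Real.exp (-2 * S.u (R.ch x) x)) :=
      ((Real.measurable_exp.comp (hur.const_mul (-2)))).ennreal_ofReal
    have hjm : Measurable j := hjc.measurable
    have hFφ : Measurable fun x => F (φ x) * ENNReal.ofReal (Real.exp (-2 * j x)) :=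
      (hF.comp φ.continuous.measurable).mul
        (Real.measurable_exp.comp (hjm.const_mul (-2))).ennreal_ofReal
    unfold Scale.area
    rw [lintegral_withDensity_eq_lintegral_mul _ hd hFφ,
      lintegral_withDensity_eq_lintegral_mul _ hd hF]
    have h1 := hwc.2.2 _ (hd.mul hF)
    rw [← h1]
    refine lintegral_congr_ae ?_
    filter_upwards [hcone] with x hx
    have h2 : j x + S.u (R.ch x) x = S.u (R.ch (φ x)) (φ x) - Real.log |kap R φ γ x| := by
      rw [hj x hx, jz]; ring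
    have h3 : Real.exp (-2 * S.u (R.ch x) x) * Real.exp (-2 * j x) =
        Real.exp (-2 * S.u (R.ch (φ x)) (φ x)) * kap R φ γ x ^ 2 := by
      rw [← Real.exp_add]
      have h4 : -2 * S.u (R.ch x) x + -2 * j x =
          -2 * S.u (R.ch (φ x)) (φ x) + (Real.log |kap R φ γ x| + Real.log |kap R φ γ x|) := by
        linarith
      rw [h4, Real.exp_add, Real.exp_add,
        Real.exp_log (abs_pos.2 (kap_ne_zero R φ γ x)), abs_mul_abs_self]
      ring
    change ENNReal.ofReal (Real.exp (-2 * S.u (R.ch x) x)) *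
      (F (φ x) * ENNReal.ofReal (Real.exp (-2 * j x))) =
      ENNReal.ofReal (Real.exp (-2 * S.u (R.ch (φ x)) (φ x))) * F (φ x) *
        ENNReal.ofReal (kap R φ γ x ^ 2)
    calc ENNReal.ofReal (Real.exp (-2 * S.u (R.ch x) x)) *
          (F (φ x) * ENNReal.ofReal (Real.exp (-2 * j x)))
        = F (φ x) * (ENNReal.ofReal (Real.exp (-2 * S.u (R.ch x) x)) *
            ENNReal.ofReal (Real.exp (-2 * j x))) := by ring
      _ = F (φ x) * (ENNReal.ofReal (Real.exp (-2 * S.u (R.ch (φ x)) (φ x))) *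
            ENNReal.ofReal (kap R φ γ x ^ 2)) := by
          rw [← ENNReal.ofReal_mul (Real.exp_pos _).le, h3,
            ENNReal.ofReal_mul (Real.exp_pos _).le]
      _ = _ := by ring
  · -- solutions
    intro g c c' f hsol hc
    have hUH : tau (g * γ) ∈ UH := by
      change 0 < (tau (g * γ)).im
      rw [tau_im]
      have hd := det_eq' (g * γ)
      have h1 : 0 ≤ (g * γ).1 0 0 ^ 2 + (g * γ).1 1 0 ^ 2 := by positivity
      have h2 : (g * γ).1 0 0 ^ 2 + (g * γ).1 1 0 ^ 2 ≠ 0 := by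
        intro h
        have h3 : (g * γ).1 0 0 = 0 := by
          nlinarith [sq_nonneg ((g * γ).1 0 0), sq_nonneg ((g * γ).1 1 0)]
        have h4 : (g * γ).1 1 0 = 0 := by
          nlinarith [sq_nonneg ((g * γ).1 0 0), sq_nonneg ((g * γ).1 1 0)]
        rw [h3, h4] at hd
        simp at hd
      have h3 : 0 < (g * γ).1 0 0 ^ 2 + (g * γ).1 1 0 ^ 2 := lt_of_le_of_ne h1 (Ne.symm h2)
      positivity
    refine hG X D R S _ _ _ hUH fun x hx => ?_
    obtain ⟨b', hb', hxb', -, -⟩ := sb_BALL X D (φ x) (regular_map hφ hx) univ univ_mem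
    obtain ⟨b, a, β, hb, hxb, ha, hab⟩ := exists_good_ball hφ hx hb'.1 hxb'
    refine ⟨b, hb, hxb, sol_pull R S hφ g hj hb hb' ha hab ?_ (hsol b' hb')⟩
    obtain ⟨L, -, -, hL3⟩ := (hL X D R).1 b hb
    refine hL3 c' _ ?_
    have h1 : c' = (γ.1 0 0 : ℂ) • T c + (γ.1 1 0 : ℂ) • T (tau g • c) := congrArg Prod.fst hc
    rw [h1]
    filter_upwards [hT' c, hT' (tau g • c), hwc' _ _ (Lp.coeFn_smul (tau g) c),
      Lp.coeFn_add ((γ.1 0 0 : ℂ) • T c) ((γ.1 1 0 : ℂ) • T (tau g • c)),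
      Lp.coeFn_smul (γ.1 0 0 : ℂ) (T c), Lp.coeFn_smul (γ.1 1 0 : ℂ) (T (tau g • c))]
      with y h2 h3 h4 h5 h6 h7
    rw [h5, Pi.add_apply, h6, h7, Pi.smul_apply, Pi.smul_apply, h2, h3, h4, Pi.smul_apply]
    simp only [smul_eq_mul]
    ring

end Pool.Agent.Helper26.Dil
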