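import Pool.Agent.Helper73.Dil.Rat

/-!
Module S_AFF, part 1: pointwise computations with affine maps between charts.
-/

open Topology Set Filter MeasureTheory Metric

namespace Pool.Agent.Helper26.Dil

open Pool.Agent.Helper73.Dil Pool.Agent.Helper73.Dil.DilationSurface

universe u

/-! ### the linear maps -/

theorem det_eq' (γ : G) : γ.1 0 0 * γ.1 1 1 - γ.1 0 1 * γ.1 1 0 = 1 := by
  have := γ.2
  rwa [Matrix.det_fin_two] at this

theorem lin_inj (γ : G) {z w : ℂ} (h : lin γ z = lin γ w) : z = w := by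
  have := congrArg (lin γ⁻¹) h
  rwa [← lin_mul, ← lin_mul, inv_mul_cancel, lin_one, lin_one] at this

theorem lin_sub (γ : G) (z w : ℂ) : lin γ (z - w) = lin γ z - lin γ w := by
  apply Complex.ext <;> simp [lin] <;> ring

theorem lin_zero (γ : G) : lin γ 0 = 0 := by
  apply Complex.ext <;> simp [lin]

theorem lin_ne_zero (γ : G) {z : ℂ} (h : z ≠ 0) : lin γ z ≠ 0 := fun h' =>
  h (lin_inj γ (by rw [h', lin_zero]))

theorem lin_apply_one (γ : G) : lin γ 1 = γ.1 0 0 + γ.1 1 0 * Complex.I := by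
  apply Complex.ext <;> simp [lin]

theorem lin_apply_I (γ : G) : lin γ Complex.I = γ.1 0 1 + γ.1 1 1 * Complex.I := by
  apply Complex.ext <;> simp [lin]

/-- `lin γ` as a continuous real-linear map -/
noncomputable def linL (γ : G) : ℂ →L[ℝ] ℂ :=
  LinearMap.toContinuousLinearMap
    { toFun := lin γ
      map_add' := lin_add γ
      map_smul' := fun c z => by
        simp only [RingHom.id_apply, Complex.real_smul]
        exact lin_smul γ c z }

theorem linL_apply (γ : G) (z : ℂ) : linL γ z = lin γ z := rfl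

/-! ### affine maps between charts -/

section
variable {X : Type u} [TopologicalSpace X]

/-- `e' (φ y) = a * lin γ (e y) + β` near `x` -/
def AffAt (φ : X → X) (γ : G) (e e' : X → ℂ) (x : X) (a : ℝ) : Prop :=
  a ≠ 0 ∧ ∃ β : ℂ, ∀ᶠ y in 𝓝 x, e' (φ y) = a * lin γ (e y) + β

theorem AffAt.eventually {φ : X → X} {γ : G} {e e' : X → ℂ} {x : X} {a : ℝ}
    (h : AffAt φ γ e e' x a) : ∀ᶠ y in 𝓝 x, AffAt φ γ e e' y a := by
  obtain ⟨ha, β, h⟩ := h
  filter_upwards [h.eventually_nhds] with y hy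
  exact ⟨ha, β, hy⟩

theorem AffAt.unique {φ : X → X} {γ : G} (e : OpenPartialHomeomorph X ℂ) {e' : X → ℂ} {x : X}
    (hx : x ∈ e.source) {a a' : ℝ} (h : AffAt φ γ e e' x a) (h' : AffAt φ γ e e' x a') :
    a = a' := by
  obtain ⟨-, β, h⟩ := h
  obtain ⟨-, β', h'⟩ := h'
  obtain ⟨y, ⟨hy1, hy2⟩, hy3⟩ := chart_frequently_ne e hx (h.and h')
  have hx1 := h.self_of_nhds
  have hx2 := h'.self_of_nhds
  have hne : lin γ (e y) - lin γ (e x) ≠ 0 := by
    rw [← lin_sub]; exact lin_ne_zero γ (sub_ne_zero.2 hy3)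
  have h1 : (a : ℂ) * (lin γ (e y) - lin γ (e x)) = a' * (lin γ (e y) - lin γ (e x)) := by
    have h1 : e' (φ y) - e' (φ x) = a * (lin γ (e y) - lin γ (e x)) := by rw [hy1, hx1]; ring
    have h2 : e' (φ y) - e' (φ x) = a' * (lin γ (e y) - lin γ (e x)) := by rw [hy2, hx2]; ring
    rw [← h1, h2]
  exact_mod_cast mul_right_cancel₀ hne h1

/-- change of the chart at `x`: `e = r * e1 + b` near `x` -/
theorem AffAt.left {φ : X → X} {γ : G} {e e1 e' : X → ℂ} {x : X} {a r : ℝ} {b : ℂ}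
    (h : AffAt φ γ e e' x a) (hr : r ≠ 0) (hb : ∀ᶠ y in 𝓝 x, e y = r * e1 y + b) :
    AffAt φ γ e1 e' x (a * r) := by
  obtain ⟨ha, β, h⟩ := h
  refine ⟨mul_ne_zero ha hr, a * lin γ b + β, ?_⟩
  filter_upwards [h, hb] with y hy hy'
  rw [hy, hy', lin_add, lin_smul]
  push_cast
  ring

/-- change of the chart at `φ x`: `e'' = s * e' + b` near `φ x` -/
theorem AffAt.right {φ : X → X} {γ : G} {e e' e'' : X → ℂ} {x : X} {a s : ℝ} {b : ℂ}
    (h : AffAt φ γ e e' x a) (hφ : ContinuousAt φ x) (hs : s ≠ 0)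
    (hb : ∀ᶠ y in 𝓝 (φ x), e'' y = s * e' y + b) : AffAt φ γ e e'' x (s * a) := by
  obtain ⟨ha, β, h⟩ := h
  refine ⟨mul_ne_zero hs ha, s * β + b, ?_⟩
  filter_upwards [h, hφ.eventually hb] with y hy hy'
  rw [hy', hy]
  push_cast
  ring

variable {D : DilationSurface X}

theorem exists_affAt {φ : X ≃ₜ X} {γ : G} (hφ : D.IsAffineAut φ γ)
    {e e' : OpenPartialHomeomorph X ℂ} (he : D.IsChart e) (he' : D.IsChart e') {x : X}
    (hx : x ∈ e.source) (hx' : φ x ∈ e'.source) : ∃ a, AffAt φ γ e e' x a := by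
  obtain ⟨e0, he0, hxe0⟩ := D.cover x (he.1 x hx)
  obtain ⟨e1, he1, hxe1⟩ := D.cover (φ x) (he'.1 _ hx')
  obtain ⟨c, b, hc, h⟩ := hφ.2 x (he.1 x hx) e0 he0 hxe0 e1 he1 hxe1
  obtain ⟨r, a1, b1, ha1, -, h1⟩ := isChart_dil he (isChart_of_atlas he0) hx hxe0
  obtain ⟨s, a2, b2, ha2, -, h2⟩ := isChart_dil (isChart_of_atlas he1) he' hxe1 hx'
  have h0 : AffAt φ γ e0 e1 x c := ⟨hc, b, h⟩
  exact ⟨_, (h0.left ha1 h1).right φ.continuous.continuousAt ha2 h2⟩

/-- the inverse automorphism -/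
theorem AffAt.symm {φ : X ≃ₜ X} {γ : G} {e e' : X → ℂ} {x : X} {a : ℝ}
    (h : AffAt φ γ e e' x a) : AffAt φ.symm γ⁻¹ e' e (φ x) a⁻¹ := by
  obtain ⟨ha, β, h⟩ := h
  refine ⟨inv_ne_zero ha, -(a⁻¹ : ℝ) * lin γ⁻¹ β, ?_⟩
  have h1 : ∀ᶠ y in 𝓝 (φ x), e' (φ (φ.symm y)) = a * lin γ (e (φ.symm y)) + β := by
    have h2 : Tendsto φ.symm (𝓝 (φ x)) (𝓝 x) := by
      have := φ.symm.continuous.continuousAt (x := φ x) |>.tendsto
      rwa [φ.symm_apply_apply] at this
    exact h2.eventually h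
  filter_upwards [h1] with y hy
  rw [φ.apply_symm_apply] at hy
  have hac : (a : ℂ) ≠ 0 := by exact_mod_cast ha
  rw [hy, lin_add, lin_smul, ← lin_mul, inv_mul_cancel, lin_one]
  push_cast
  field_simp
  ring

/-! ### the reference charts -/

theorem Ref.mem_ch (R : D.Ref) {x : X} (hx : x ∉ D.cone) : x ∈ (R.ch x).source := by
  have h : {n | x ∈ (R.B n).source}.Nonempty := R.cov x hx
  exact Nat.sInf_mem h

theorem Ref.isChart_ch (R : D.Ref) (x : X) : D.IsChart (R.ch x) := (R.ball _).1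

open Classical in
/-- the factor of the affine automorphism in the reference charts -/
noncomputable def kap (R : D.Ref) (φ : X → X) (γ : G) (x : X) : ℝ :=
  if h : x ∉ D.cone ∧ ∃ a, AffAt φ γ (R.ch x) (R.ch (φ x)) x a then h.2.choose else 1

theorem kap_ne_zero (R : D.Ref) (φ : X → X) (γ : G) (x : X) : kap R φ γ x ≠ 0 := by
  rw [kap]
  split_ifs with h
  · exact h.2.choose_spec.1
  · exact one_ne_zero

theorem regular_map {φ : X ≃ₜ X} {γ : G} (hφ : D.IsAffineAut φ γ) {x : X} (hx : x ∉ D.cone) :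
    φ x ∉ D.cone := fun h => hx ((hφ.1 x).1 h)

theorem kap_spec (R : D.Ref) {φ : X ≃ₜ X} {γ : G} (hφ : D.IsAffineAut φ γ) {x : X}
    (hx : x ∉ D.cone) : AffAt φ γ (R.ch x) (R.ch (φ x)) x (kap R φ γ x) := by
  have h : ∃ a, AffAt φ γ (R.ch x) (R.ch (φ x)) x a :=
    exists_affAt hφ (Ref.isChart_ch R x) (Ref.isChart_ch R _) (Ref.mem_ch R hx)
      (Ref.mem_ch R (regular_map hφ hx))
  rw [kap, dif_pos ⟨hx, h⟩]
  exact (Exists.choose_spec _ : _)

theorem kap_eq (R : D.Ref) {φ : X ≃ₜ X} {γ : G} (hφ : D.IsAffineAut φ γ) {x : X}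
    (hx : x ∉ D.cone) {a : ℝ} (h : AffAt φ γ (R.ch x) (R.ch (φ x)) x a) :
    kap R φ γ x = a :=
  (kap_spec R hφ hx).unique (R.ch x) (Ref.mem_ch R hx) h

/-- the factor computed in arbitrary charts -/
theorem kap_mul_rat (R : D.Ref) {φ : X ≃ₜ X} {γ : G} (hφ : D.IsAffineAut φ γ)
    {e e' : OpenPartialHomeomorph X ℂ} (he : D.IsChart e) (he' : D.IsChart e') {x : X}
    (hx : x ∈ e.source) (hx' : φ x ∈ e'.source) {a : ℝ} (h : AffAt φ γ e e' x a) :
    kap R φ γ x * rat e (R.ch x) x = a * rat e' (R.ch (φ x)) (φ x) := by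
  have hxc := he.1 x hx
  have hxc' := he'.1 _ hx'
  obtain ⟨r, hr⟩ := isChart_dil he (Ref.isChart_ch R x) hx (Ref.mem_ch R hxc)
  obtain ⟨hr1, β1, hr2⟩ := rat_spec hr
  obtain ⟨s, hs⟩ := isChart_dil he' (Ref.isChart_ch R (φ x)) hx' (Ref.mem_ch R hxc')
  obtain ⟨hs1, β2, hs2⟩ := rat_spec hs
  have h1 := (kap_spec R hφ hxc).left hr1 hr2
  have h2 := h.right φ.continuous.continuousAt hs1 hs2
  rw [h1.unique e hx h2, mul_comm]

/-! ### gradients -/

/-- chain rule for the derivative of a function composed with the affine map -/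
theorem fderiv_aff {F F' : ℂ → ℂ} {γ : G} {a : ℝ} {β : ℂ} {z : ℂ} {k : ℂ}
    (hF : DifferentiableAt ℝ F (a * lin γ z + β))
    (h : ∀ᶠ w in 𝓝 z, F' w = F (a * lin γ w + β) + k) :
    dx F' z = a * (γ.1 0 0 * dx F (a * lin γ z + β) + γ.1 1 0 * dy F (a * lin γ z + β)) ∧
    dy F' z = a * (γ.1 0 1 * dx F (a * lin γ z + β) + γ.1 1 1 * dy F (a * lin γ z + β)) := by
  have hA : HasFDerivAt (fun w : ℂ => (a : ℂ) * lin γ w + β) (a • linL γ) z := by
    have h1 : HasFDerivAt (fun w : ℂ => linL γ w) (linL γ) z := (linL γ).hasFDerivAt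
    have h2 := (h1.const_smul a).add_const β
    refine h2.congr_of_eventuallyEq (Eventually.of_forall fun w => ?_)
    simp [linL_apply]
  have hc := (hF.hasFDerivAt.comp z hA).add_const k
  have hF' : HasFDerivAt F' ((fderiv ℝ F (a * lin γ z + β)).comp (a • linL γ)) z :=
    hc.congr_of_eventuallyEq h
  have h1 : fderiv ℝ F' z = (fderiv ℝ F (a * lin γ z + β)).comp (a • linL γ) := hF'.fderiv
  have key : ∀ p q : ℝ, (fderiv ℝ F (a * lin γ z + β)) ((p : ℂ) + q * Complex.I) =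
      p * dx F (a * lin γ z + β) + q * dy F (a * lin γ z + β) := by
    intro p q
    have e1 : ((p : ℂ) + q * Complex.I) = p • (1 : ℂ) + q • Complex.I := by
      simp
    rw [e1, map_add, map_smul, map_smul]
    simp [dx, dy]
  constructor
  · rw [dx, h1]
    simp only [ContinuousLinearMap.comp_apply, smul_apply, map_smul]
    rw [linL_apply, lin_apply_one, key, Complex.real_smul]
  · rw [dy, h1]
    simp only [ContinuousLinearMap.comp_apply, smul_apply, map_smul]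
    rw [linL_apply, lin_apply_I, key, Complex.real_smul]

/-- passing to the charts -/
theorem eventually_symm {e : OpenPartialHomeomorph X ℂ} {x : X} (hx : x ∈ e.source)
    {p : X → Prop} (hp : ∀ᶠ y in 𝓝 x, p y) :
    ∀ᶠ z in 𝓝 (e x), p (e.symm z) ∧ z ∈ e.target := by
  have h2 : Tendsto e.symm (𝓝 (e x)) (𝓝 x) := by
    have := (e.symm.continuousAt (x := e x) (by simpa using e.map_source hx)).tendsto
    rwa [e.left_inv hx] at this
  exact (h2.eventually hp).and (e.open_target.mem_nhds (e.map_source hx))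

/-- the composition with the automorphism in charts -/
theorem comp_aff {F F' : X → ℂ} {φ : X ≃ₜ X} {γ : G} {e e' : OpenPartialHomeomorph X ℂ} {x : X}
    (hx : x ∈ e.source) (hx' : φ x ∈ e'.source) {a : ℝ} {β k : ℂ}
    (h : ∀ᶠ y in 𝓝 x, e' (φ y) = a * lin γ (e y) + β)
    (hF : ∀ᶠ y in 𝓝 x, F' y = F (φ y) + k) :
    ∀ᶠ w in 𝓝 (e x), (F' ∘ e.symm) w = (F ∘ e'.symm) (a * lin γ w + β) + k := by
  have h3 : ∀ᶠ y in 𝓝 x, φ y ∈ e'.source :=
    φ.continuous.continuousAt.eventually (e'.open_source.mem_nhds hx')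
  filter_upwards [eventually_symm hx (h.and (hF.and h3))] with w hw
  obtain ⟨⟨h1, h2, h3⟩, h4⟩ := hw
  simp only [Function.comp_apply]
  rw [h2]
  rw [e.right_inv h4] at h1
  rw [← h1, e'.left_inv h3]

theorem grad_aff (R : D.Ref) {F F' : OpenPartialHomeomorph X ℂ → X → ℂ} {φ : X ≃ₜ X} {γ : G}
    (hφ : D.IsAffineAut φ γ) {x : X} (hx : x ∉ D.cone) {k : ℂ}
    (hF : ∀ᶠ y in 𝓝 x, F' (R.ch x) y = F (R.ch (φ x)) (φ y) + k)
    (hd : DifferentiableAt ℝ (F (R.ch (φ x)) ∘ (R.ch (φ x)).symm) (R.ch (φ x) (φ x))) :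
    R.gx F' x = kap R φ γ x * (γ.1 0 0 * R.gx F (φ x) + γ.1 1 0 * R.gy F (φ x)) ∧
    R.gy F' x = kap R φ γ x * (γ.1 0 1 * R.gx F (φ x) + γ.1 1 1 * R.gy F (φ x)) := by
  obtain ⟨h0, β, h⟩ := kap_spec R hφ hx
  have h1 := comp_aff (Ref.mem_ch R hx) (Ref.mem_ch R (regular_map hφ hx)) h hF
  have h2 := h.self_of_nhds
  rw [h2] at hd
  have h3 := fderiv_aff hd h1
  rw [Ref.gx, Ref.gy, Ref.gx, Ref.gy, h2]
  exact h3

end

end Pool.Agent.Helper26.Dil
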