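import Mathlib

/-!
Weighted composition operators on `L²`.
-/

open Topology Set Filter MeasureTheory Metric

namespace Pool.Agent.Helper26.Dil

universe u

variable {X : Type u} [MeasurableSpace X]

/-- the change of variables formula of a weighted composition -/
def WC (μ : Measure X) (φ : X ≃ᵐ X) (c : X → ℝ) : Prop :=
  Measurable c ∧ (∀ x, c x ≠ 0) ∧
    ∀ F : X → ENNReal, Measurable F →
      ∫⁻ x, F (φ x) * ENNReal.ofReal (c x ^ 2) ∂μ = ∫⁻ x, F x ∂μ

theorem WC.symm {μ : Measure X} {φ : X ≃ᵐ X} {c : X → ℝ} (h : WC μ φ c) :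
    WC μ φ.symm fun x => (c (φ.symm x))⁻¹ := by
  obtain ⟨hc, h0, hF⟩ := h
  have hm : Measurable fun x => (c (φ.symm x))⁻¹ := (hc.comp φ.symm.measurable).inv
  refine ⟨hm, fun x => inv_ne_zero (h0 _), fun F hFm => ?_⟩
  have h1 := hF (fun x => F (φ.symm x) * ENNReal.ofReal ((c (φ.symm x))⁻¹ ^ 2))
    ((hFm.comp φ.symm.measurable).mul (hm.pow_const 2).ennreal_ofReal)
  rw [← h1]
  refine lintegral_congr fun x => ?_
  simp only [MeasurableEquiv.symm_apply_apply]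
  rw [mul_assoc, ← ENNReal.ofReal_mul (by positivity), ← mul_pow, inv_mul_cancel₀ (h0 x)]
  simp

theorem WC.qmp {μ : Measure X} {φ : X ≃ᵐ X} {c : X → ℝ} (h : WC μ φ c) :
    Measure.QuasiMeasurePreserving φ μ μ := by
  refine ⟨φ.measurable, ?_⟩
  refine Measure.AbsolutelyContinuous.mk fun s hs h0 => ?_
  rw [Measure.map_apply φ.measurable hs]
  have h1 := h.2.2 (s.indicator 1) (measurable_one.indicator hs)
  rw [lintegral_indicator_one hs, h0] at h1
  have hme : AEMeasurable (fun x => s.indicator (1 : X → ENNReal) (φ x) *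
      ENNReal.ofReal (c x ^ 2)) μ := (((measurable_one.indicator hs).comp φ.measurable).mul
    (h.1.pow_const 2).ennreal_ofReal).aemeasurable
  rw [lintegral_eq_zero_iff' hme] at h1
  rw [measure_eq_zero_iff_ae_notMem]
  filter_upwards [h1] with x hx hxs
  have h2 : (0 : ℝ) < c x ^ 2 := by have := h.2.1 x; positivity
  have h3 : ENNReal.ofReal (c x ^ 2) ≠ 0 := by
    rw [Ne, ENNReal.ofReal_eq_zero]; linarith
  have h4 : s.indicator (1 : X → ENNReal) (φ x) = 1 := by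
    exact indicator_of_mem (show φ x ∈ s from hxs) _
  change s.indicator (1 : X → ENNReal) (φ x) * ENNReal.ofReal (c x ^ 2) = 0 at hx
  rw [h4, one_mul] at hx
  exact h3 hx

theorem WC.congr {μ : Measure X} {φ : X ≃ᵐ X} {c : X → ℝ} (h : WC μ φ c) {f g : X → ℂ}
    (hfg : f =ᵐ[μ] g) :
    (fun x => (c x : ℂ) * f (φ x)) =ᵐ[μ] fun x => (c x : ℂ) * g (φ x) := by
  filter_upwards [h.qmp.ae_eq_comp hfg] with x hx
  simp only [Function.comp_apply] at hx
  rw [hx]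

theorem WC.eLpNorm_eq {μ : Measure X} {φ : X ≃ᵐ X} {c : X → ℝ} (h : WC μ φ c) (f : Lp ℂ 2 μ) :
    eLpNorm (fun x => (c x : ℂ) * f (φ x)) 2 μ = eLpNorm f 2 μ := by
  rw [eLpNorm_eq_lintegral_rpow_enorm_toReal (by norm_num) (by norm_num),
    eLpNorm_eq_lintegral_rpow_enorm_toReal (by norm_num) (by norm_num)]
  have h1 := h.2.2 (fun x => ‖f x‖ₑ ^ (2 : ℝ))
    ((Lp.stronglyMeasurable f).measurable.enorm.pow_const _)
  simp only [ENNReal.toReal_ofNat]
  rw [← h1]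
  have h2 : ∀ x, ‖(c x : ℂ) * f (φ x)‖ₑ ^ (2 : ℝ) =
      ‖f (φ x)‖ₑ ^ (2 : ℝ) * ENNReal.ofReal (c x ^ 2) := by
    intro x
    rw [enorm_mul, ENNReal.mul_rpow_of_nonneg _ _ (by norm_num), mul_comm]
    congr 1
    rw [← ofReal_norm, Complex.norm_real, Real.norm_eq_abs,
      ENNReal.ofReal_rpow_of_nonneg (abs_nonneg _) (by norm_num)]
    norm_num
  rw [lintegral_congr h2]

theorem WC.memLp {μ : Measure X} {φ : X ≃ᵐ X} {c : X → ℝ} (h : WC μ φ c) (f : Lp ℂ 2 μ) :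
    MemLp (fun x => (c x : ℂ) * f (φ x)) 2 μ := by
  refine ⟨?_, ?_⟩
  · exact ((Complex.measurable_ofReal.comp h.1).mul
      ((Lp.stronglyMeasurable f).measurable.comp φ.measurable)).aestronglyMeasurable
  · rw [h.eLpNorm_eq]
    exact Lp.eLpNorm_lt_top f

/-- the weighted composition operator -/
noncomputable def wcomp {μ : Measure X} {φ : X ≃ᵐ X} {c : X → ℝ} (h : WC μ φ c) :
    Lp ℂ 2 μ →ₗᵢ[ℂ] Lp ℂ 2 μ where
  toFun f := (h.memLp f).toLp _
  map_add' f g := by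
    apply Lp.ext
    filter_upwards [(h.memLp (f + g)).coeFn_toLp, (h.memLp f).coeFn_toLp, (h.memLp g).coeFn_toLp,
      Lp.coeFn_add ((h.memLp f).toLp _) ((h.memLp g).toLp _), h.congr (Lp.coeFn_add f g)]
      with x h1 h2 h3 h4 h5
    rw [h1, h5, h4, Pi.add_apply, Pi.add_apply, h2, h3]
    ring
  map_smul' r f := by
    apply Lp.ext
    filter_upwards [(h.memLp (r • f)).coeFn_toLp, (h.memLp f).coeFn_toLp,
      Lp.coeFn_smul r ((h.memLp f).toLp _), h.congr (Lp.coeFn_smul r f)]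
      with x h1 h2 h4 h5
    rw [h1, h5]
    simp only [RingHom.id_apply]
    rw [h4, Pi.smul_apply, Pi.smul_apply, h2]
    simp only [smul_eq_mul]
    ring
  norm_map' f := by
    change ‖(h.memLp f).toLp _‖ = ‖f‖
    rw [Lp.norm_toLp, h.eLpNorm_eq, Lp.norm_def]

theorem wcomp_coe {μ : Measure X} {φ : X ≃ᵐ X} {c : X → ℝ} (h : WC μ φ c) (f : Lp ℂ 2 μ) :
    wcomp h f =ᵐ[μ] fun x => (c x : ℂ) * f (φ x) := (h.memLp f).coeFn_toLp

theorem wcomp_surj {μ : Measure X} {φ : X ≃ᵐ X} {c : X → ℝ} (h : WC μ φ c) :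
    Function.Surjective (wcomp h) := by
  intro g
  refine ⟨wcomp h.symm g, ?_⟩
  apply Lp.ext
  filter_upwards [wcomp_coe h (wcomp h.symm g), h.congr (wcomp_coe h.symm g)] with x h1 h2
  rw [h1, h2]
  simp only [MeasurableEquiv.symm_apply_apply]
  have : (c x : ℂ) ≠ 0 := by exact_mod_cast h.2.1 x
  push_cast
  field_simp

/-- weighted composition operators are unitary -/
theorem exists_wcomp {μ : Measure X} {φ : X ≃ᵐ X} {c : X → ℝ} (h : WC μ φ c) :
    ∃ T : Lp ℂ 2 μ ≃ₗᵢ[ℂ] Lp ℂ 2 μ, ∀ f : Lp ℂ 2 μ, T f =ᵐ[μ] fun x => (c x : ℂ) * f (φ x) :=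
  ⟨LinearIsometryEquiv.ofSurjective (wcomp h) (wcomp_surj h), fun f => wcomp_coe h f⟩

end Pool.Agent.Helper26.Dil
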