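import Pool.Agent.Helper26.Dil.Aff1
import Pool.Agent.Helper26.Dil.WComp

/-!
Module S_AFF, part 2: measurability and the change of variables formula.
-/

open Topology Set Filter MeasureTheory Metric

namespace Pool.Agent.Helper26.Dil

open Pool.Agent.Helper73.Dil Pool.Agent.Helper73.Dil.DilationSurface

universe u

/-! ### measurability -/

theorem measurable_of_locally_const {X : Type u} [TopologicalSpace X] [MeasurableSpace X]
    [BorelSpace X] {f : X → ℝ} {U : Set X} (hU : IsOpen U)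
    (h1 : ∀ x ∈ U, ∀ᶠ y in 𝓝 x, f y = f x) {k : ℝ} (h2 : ∀ x, x ∉ U → f x = k) :
    Measurable f := by
  refine measurable_of_restrict_of_restrict_compl hU.measurableSet ?_ ?_
  · have : ContinuousOn f U := by
      intro x hx
      have h3 : Tendsto f (𝓝 x) (𝓝 (f x)) := by
        refine tendsto_const_nhds.congr' ?_
        filter_upwards [h1 x hx] with y hy
        exact hy.symm
      exact ContinuousAt.continuousWithinAt h3
    exact (continuousOn_iff_continuous_domRestrict.1 this).measurable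
  · have : Uᶜ.domRestrict f = fun _ => k := by
      funext x
      exact h2 x.1 x.2
    rw [this]
    exact measurable_const

section
variable {X : Type u} [TopologicalSpace X] {D : DilationSurface X}

open Classical in
/-- the factor in the charts `B n`, `B m` -/
noncomputable def fac (R : D.Ref) (φ : X → X) (γ : G) (n m : ℕ) (x : X) : ℝ :=
  if h : (x ∈ (R.B n).source ∧ φ x ∈ (R.B m).source) ∧ ∃ a, AffAt φ γ (R.B n) (R.B m) x a
  then h.2.choose else 1

theorem fac_spec (R : D.Ref) {φ : X ≃ₜ X} {γ : G} (hφ : D.IsAffineAut φ γ) {n m : ℕ} {x : X}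
    (hx : x ∈ (R.B n).source) (hx' : φ x ∈ (R.B m).source) :
    AffAt φ γ (R.B n) (R.B m) x (fac R φ γ n m x) := by
  have h := exists_affAt hφ (R.ball n).1 (R.ball m).1 hx hx'
  rw [fac, dif_pos ⟨⟨hx, hx'⟩, h⟩]
  exact (Exists.choose_spec _ : _)

theorem measurable_fac [MeasurableSpace X] [BorelSpace X] (R : D.Ref) {φ : X ≃ₜ X} {γ : G}
    (hφ : D.IsAffineAut φ γ) (n m : ℕ) : Measurable (fac R φ γ n m) := by
  refine measurable_of_locally_const
    (U := (R.B n).source ∩ φ ⁻¹' (R.B m).source)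
    ((R.B n).open_source.inter ((R.B m).open_source.preimage φ.continuous)) (k := 1) ?_ ?_
  · rintro x ⟨hx, hx'⟩
    have h3 : ∀ᶠ y in 𝓝 x, φ y ∈ (R.B m).source :=
      φ.continuous.continuousAt.eventually ((R.B m).open_source.mem_nhds hx')
    filter_upwards [(fac_spec R hφ hx hx').eventually, (R.B n).open_source.mem_nhds hx, h3]
      with y h1 h2 h3
    exact (fac_spec R hφ h2 h3).unique (R.B n) h2 h1
  · intro x hx
    rw [fac, dif_neg]
    rintro ⟨h1, -⟩
    exact hx h1

theorem measurable_kap [T2Space X] [MeasurableSpace X] [BorelSpace X] (R : D.Ref)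
    (hidx : Measurable R.idx) {φ : X ≃ₜ X} {γ : G} (hφ : D.IsAffineAut φ γ) :
    Measurable (kap R φ γ) := by
  classical
  have h1 : Measurable fun p : (ℕ × ℕ) × X => fac R φ γ p.1.1 p.1.2 p.2 :=
    measurable_from_prod_countable_right fun p => measurable_fac R hφ p.1 p.2
  have h2 : Measurable fun x => fac R φ γ (R.idx x) (R.idx (φ x)) x :=
    h1.comp ((hidx.prodMk (hidx.comp φ.continuous.measurable)).prodMk measurable_id)
  have h3 : kap R φ γ = D.cone.piecewise (fun _ => 1)
      (fun x => fac R φ γ (R.idx x) (R.idx (φ x)) x) := by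
    funext x
    by_cases hx : x ∈ D.cone
    · rw [piecewise_eq_of_mem _ _ _ hx, kap, dif_neg]
      rintro ⟨h, -⟩
      exact h hx
    · rw [piecewise_eq_of_notMem _ _ _ hx]
      exact kap_eq R hφ hx (fac_spec R hφ (Ref.mem_ch R hx)
        (Ref.mem_ch R (regular_map hφ hx)))
  rw [h3]
  exact Measurable.piecewise D.cone_finite.measurableSet measurable_const h2

/-! ### the regular part is Lindelöf -/

theorem isLindelof_regular (R : D.Ref) : IsLindelof (D.cone)ᶜ := by
  have h1 : (D.cone)ᶜ = ⋃ n, (R.B n).source := by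
    ext x
    simp only [mem_compl_iff, mem_iUnion]
    exact ⟨fun h => R.cov x h, fun ⟨n, hn⟩ => (R.ball n).1.1 x hn⟩
  rw [h1]
  refine isLindelof_iUnion fun n => ?_
  rw [← (R.B n).symm_image_target_eq_source]
  exact (HereditarilyLindelofSpace.isLindelof _).image_of_continuousOn (R.B n).continuousOn_symm

theorem measure_ext_local [T2Space X] [MeasurableSpace X] [BorelSpace X] (R : D.Ref)
    {μ ν : Measure X} (h1 : μ D.cone = 0) (h2 : ν D.cone = 0)
    (h : ∀ x, x ∉ D.cone → ∃ V, IsOpen V ∧ x ∈ V ∧ μ.restrict V = ν.restrict V) : μ = ν := by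
  have h' : ∀ x, ∃ V, x ∉ D.cone → IsOpen V ∧ x ∈ V ∧ μ.restrict V = ν.restrict V := by
    intro x
    by_cases hx : x ∉ D.cone
    · obtain ⟨V, hV⟩ := h x hx
      exact ⟨V, fun _ => hV⟩
    · exact ⟨∅, fun h => absurd h hx⟩
  choose V hV using h'
  obtain ⟨t, htc, ht, hcov⟩ := (isLindelof_regular R).elim_nhds_subcover V
    (fun x hx => (hV x hx).1.mem_nhds (hV x hx).2.1)
  have h3 : μ.restrict (⋃ x ∈ t, V x) = ν.restrict (⋃ x ∈ t, V x) :=
    (Measure.restrict_biUnion_congr htc).2 fun x hx => (hV x (ht x hx)).2.2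
  have h4 : ∀ μ : Measure X, μ D.cone = 0 → μ.restrict (⋃ x ∈ t, V x) = μ := by
    intro μ hμ
    refine Measure.restrict_eq_self_of_ae_mem ?_
    rw [measure_eq_zero_iff_ae_notMem] at hμ
    filter_upwards [hμ] with x hx
    exact hcov hx
  rw [← h4 μ h1, ← h4 ν h2, h3]

/-! ### the determinant -/

theorem det_linL (γ : G) (a : ℝ) : (a • linL γ).det = a ^ 2 := by
  have h1 : ((linL γ : ℂ →L[ℝ] ℂ) : ℂ →ₗ[ℝ] ℂ) =
      Matrix.toLin Complex.basisOneI Complex.basisOneI γ.1 := by
    refine Complex.basisOneI.ext fun i => ?_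
    rw [Matrix.toLin_self]
    fin_cases i
    · simp [linL_apply, lin_apply_one, Fin.sum_univ_two]
    · simp [linL_apply, lin_apply_I, Fin.sum_univ_two]
  have h2 : LinearMap.det ((linL γ : ℂ →L[ℝ] ℂ) : ℂ →ₗ[ℝ] ℂ) = 1 := by
    rw [h1, LinearMap.det_toLin]
    exact γ.2
  change LinearMap.det ((a • linL γ : ℂ →L[ℝ] ℂ) : ℂ →ₗ[ℝ] ℂ) = a ^ 2
  have h3 : ((a • linL γ : ℂ →L[ℝ] ℂ) : ℂ →ₗ[ℝ] ℂ) =
      a • ((linL γ : ℂ →L[ℝ] ℂ) : ℂ →ₗ[ℝ] ℂ) := rfl
  rw [h3, LinearMap.det_smul, h2, Complex.finrank_real_complex, mul_one]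

theorem hasFDerivAt_aff (γ : G) (a : ℝ) (β z : ℂ) :
    HasFDerivAt (fun w : ℂ => (a : ℂ) * lin γ w + β) (a • linL γ) z := by
  have h1 : HasFDerivAt (fun w : ℂ => linL γ w) (linL γ) z := (linL γ).hasFDerivAt
  have h2 := (h1.const_smul a).add_const β
  refine h2.congr_of_eventuallyEq (Eventually.of_forall fun w => ?_)
  simp [linL_apply]

theorem aff_inj {γ : G} {a : ℝ} (ha : a ≠ 0) (β : ℂ) :
    Function.Injective fun w : ℂ => (a : ℂ) * lin γ w + β := by
  intro z w h
  have hac : (a : ℂ) ≠ 0 := by exact_mod_cast ha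
  have h1 : (a : ℂ) * lin γ z = a * lin γ w := by simpa using h
  exact lin_inj γ (mul_left_cancel₀ hac h1)

/-- change of variables for the affine map -/
theorem lintegral_aff {γ : G} {a : ℝ} (ha : a ≠ 0) (β : ℂ) {s : Set ℂ} (hs : MeasurableSet s)
    (F : ℂ → ENNReal) :
    ∫⁻ w in (fun w : ℂ => (a : ℂ) * lin γ w + β) '' s, F w =
      ∫⁻ z in s, F (a * lin γ z + β) * ENNReal.ofReal (a ^ 2) := by
  rw [lintegral_image_eq_lintegral_abs_det_fderiv_mul volume hs
    (fun x _ => (hasFDerivAt_aff γ a β x).hasFDerivWithinAt) (aff_inj ha β).injOn]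
  refine lintegral_congr fun z => ?_
  rw [det_linL, abs_of_nonneg (by positivity), mul_comm]

/-! ### good pairs of balls -/

/-- every regular point has a small ball mapped affinely in a given chart -/
theorem exists_good_ball {φ : X ≃ₜ X} {γ : G} (hφ : D.IsAffineAut φ γ) {x : X}
    (hx : x ∉ D.cone) {b' : OpenPartialHomeomorph X ℂ} (hb' : D.IsChart b')
    (hx' : φ x ∈ b'.source) : ∃ (b : OpenPartialHomeomorph X ℂ) (a : ℝ) (β : ℂ), D.IsBall b ∧
      x ∈ b.source ∧ a ≠ 0 ∧ ∀ y ∈ b.source, φ y ∈ b'.source ∧ b' (φ y) = a * lin γ (b y) + β := by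
  obtain ⟨e, he, hxe⟩ := exists_chart hx
  obtain ⟨c, hc, β, h⟩ := exists_affAt hφ he hb' hxe hx'
  have h3 : ∀ᶠ y in 𝓝 x, φ y ∈ b'.source :=
    φ.continuous.continuousAt.eventually (b'.open_source.mem_nhds hx')
  obtain ⟨r, hr, hrt, hrs⟩ := exists_small_ball e hxe (h.and h3)
  refine ⟨rescale e (e x) r hr, c * r, c * lin γ (e x) + β,
    ⟨isChart_rescale he _ r hr, rescale_target e _ r hr hrt⟩, ?_, mul_ne_zero hc hr.ne', ?_⟩
  · rw [rescale_source]; exact ⟨hxe, mem_ball_self hr⟩
  · intro y hy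
    rw [rescale_source] at hy
    obtain ⟨h1, h2⟩ := hrs hy
    refine ⟨h2, ?_⟩
    rw [h1, rescale_apply]
    have hrc : (r : ℂ) ≠ 0 := by exact_mod_cast hr.ne'
    have h4 : ((r⁻¹ : ℝ) : ℂ) * e y + (-(r⁻¹ : ℝ) * e x) = ((r⁻¹ : ℝ) : ℂ) * (e y - e x) := by
      ring
    rw [h4, lin_smul, lin_sub]
    push_cast
    field_simp
    ring

theorem affAt_of_good {φ : X ≃ₜ X} {γ : G} {b b' : OpenPartialHomeomorph X ℂ} {a : ℝ} {β : ℂ}
    (ha : a ≠ 0) (h : ∀ y ∈ b.source, φ y ∈ b'.source ∧ b' (φ y) = a * lin γ (b y) + β) {x : X}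
    (hx : x ∈ b.source) : AffAt φ γ b b' x a :=
  ⟨ha, β, by
    filter_upwards [b.open_source.mem_nhds hx] with y hy
    exact (h y hy).2⟩

/-- the change of variables formula -/
theorem wc_kap [CompactSpace X] [T2Space X] [MeasurableSpace X] [BorelSpace X]
    (hM : SB_MEAS.{u}) (R : D.Ref) {φ : X ≃ₜ X} {γ : G} (hφ : D.IsAffineAut φ γ) :
    WC R.mu φ.toMeasurableEquiv (kap R φ γ) := by
  obtain ⟨hm1, hm2, hm3, hm4, hm5, hm6⟩ := hM X D R
  have hk := measurable_kap R hm5 hφ
  refine ⟨hk, kap_ne_zero R φ γ, ?_⟩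
  have hk2 : Measurable fun x => ENNReal.ofReal (kap R φ γ x ^ 2) :=
    (hk.pow_const 2).ennreal_ofReal
  have hφm : Measurable φ := φ.continuous.measurable
  -- the second measure
  have hν : ∀ F : X → ENNReal, Measurable F → ∫⁻ x, F x ∂((R.mu.withDensity fun x =>
      ENNReal.ofReal (kap R φ γ x ^ 2)).map φ) =
      ∫⁻ x, F (φ x) * ENNReal.ofReal (kap R φ γ x ^ 2) ∂(R.mu) := by
    intro F hF
    have hFφ : Measurable fun x => F (φ x) := hF.comp hφm
    rw [lintegral_map hF hφm, lintegral_withDensity_eq_lintegral_mul _ hk2 hFφ]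
    refine lintegral_congr fun x => ?_
    simp only [Pi.mul_apply]
    rw [mul_comm]
  suffices hmu : (R.mu.withDensity fun x => ENNReal.ofReal (kap R φ γ x ^ 2)).map φ = R.mu by
    intro F hF
    change ∫⁻ x, F (φ x) * ENNReal.ofReal (kap R φ γ x ^ 2) ∂(R.mu) = _
    rw [← hν F hF, hmu]
  refine measure_ext_local R ?_ hm1 ?_
  · rw [Measure.map_apply hφm D.cone_finite.measurableSet]
    have h1 : φ ⁻¹' D.cone = D.cone := by
      ext x
      exact hφ.1 x
    rw [h1]
    exact (withDensity_absolutelyContinuous _ _) hm1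
  intro y0 hy0
  have hx0 : φ.symm y0 ∉ D.cone := by
    intro h
    have := (hφ.1 (φ.symm y0)).2 h
    rw [φ.apply_symm_apply] at this
    exact hy0 this
  obtain ⟨b', hb', hyb', -, -⟩ := sb_BALL X D y0 hy0 univ univ_mem
  obtain ⟨b, a, β, hb, hxb, ha, hab⟩ := exists_good_ball hφ hx0 hb'.1
    (by rw [φ.apply_symm_apply]; exact hyb')
  have hVo : IsOpen (φ '' b.source) := φ.isOpenMap _ b.open_source
  have hVs : φ '' b.source ⊆ b'.source := by
    rintro _ ⟨y, hy, rfl⟩
    exact (hab y hy).1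
  refine ⟨φ '' b.source, hVo, ⟨φ.symm y0, hxb, φ.apply_symm_apply y0⟩, ?_⟩
  refine Measure.ext_of_lintegral _ fun F hF => ?_
  -- both sides are the integral of `G` over the image of the unit disc
  have himg : ∀ w ∈ B1, (b'.symm w ∈ φ '' b.source ↔
      w ∈ (fun w : ℂ => (a : ℂ) * lin γ w + β) '' B1) := by
    intro w hw
    have hwt : w ∈ b'.target := by rw [hb'.2]; exact hw
    constructor
    · rintro ⟨y, hy, hyw⟩
      refine ⟨b y, ?_, ?_⟩
      · rw [← hb.2]; exact b.map_source hy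
      · change (a : ℂ) * lin γ (b y) + β = w
        rw [← (hab y hy).2, hyw, b'.right_inv hwt]
    · rintro ⟨z, hz, hzw⟩
      have hzt : z ∈ b.target := by rw [hb.2]; exact hz
      refine ⟨b.symm z, b.map_target hzt, ?_⟩
      have h1 := hab (b.symm z) (b.map_target hzt)
      rw [b.right_inv hzt] at h1
      change (a : ℂ) * lin γ z + β = w at hzw
      rw [hzw] at h1
      rw [← h1.2, b'.left_inv h1.1]
  have hsub : (fun w : ℂ => (a : ℂ) * lin γ w + β) '' B1 ⊆ B1 := by
    rintro _ ⟨z, hz, rfl⟩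
    have hzt : z ∈ b.target := by rw [hb.2]; exact hz
    have h1 := hab (b.symm z) (b.map_target hzt)
    rw [b.right_inv hzt] at h1
    change (a : ℂ) * lin γ z + β ∈ B1
    rw [← h1.2, ← hb'.2]
    exact b'.map_source h1.1
  -- right-hand side
  have hR : ∫⁻ x in φ '' b.source, F x ∂(R.mu) =
      ∫⁻ w in (fun w : ℂ => (a : ℂ) * lin γ w + β) '' B1, F (b'.symm w) *
        ENNReal.ofReal ((rat b' (R.ch (b'.symm w)) (b'.symm w)) ^ 2) := by
    have h1 := (hm6 b' hb').2 ((φ '' b.source).indicator F) (hF.indicator hVo.measurableSet)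
    rw [lintegral_indicator hVo.measurableSet, Measure.restrict_restrict hVo.measurableSet,
      inter_eq_self_of_subset_left hVs] at h1
    rw [h1]
    have hAm : MeasurableSet ((fun w : ℂ => (a : ℂ) * lin γ w + β) '' B1) :=
      measurable_image_of_fderivWithin isOpen_ball.measurableSet
        (fun x _ => (hasFDerivAt_aff γ a β x).hasFDerivWithinAt) (aff_inj ha β).injOn
    have h5 : (volume : Measure ℂ).restrict ((fun w : ℂ => (a : ℂ) * lin γ w + β) '' B1) =
        (volume.restrict B1).restrict ((fun w : ℂ => (a : ℂ) * lin γ w + β) '' B1) := by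
      rw [Measure.restrict_restrict hAm, inter_eq_self_of_subset_left hsub]
    rw [h5, ← lintegral_indicator hAm]
    refine setLIntegral_congr_fun isOpen_ball.measurableSet fun w hw => ?_
    by_cases h : b'.symm w ∈ φ '' b.source
    · rw [indicator_of_mem h, indicator_of_mem ((himg w hw).1 h)]
    · rw [indicator_of_notMem h, indicator_of_notMem (fun h' => h ((himg w hw).2 h')), zero_mul]
  have hB1 : MeasurableSet B1 := isOpen_ball.measurableSet
  rw [hR, lintegral_aff ha β hB1]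
  -- left-hand side
  rw [← lintegral_indicator hVo.measurableSet, hν _ (hF.indicator hVo.measurableSet)]
  have h2 : ∀ x, (φ '' b.source).indicator F (φ x) * ENNReal.ofReal (kap R φ γ x ^ 2) =
      b.source.indicator (fun x => F (φ x) * ENNReal.ofReal (kap R φ γ x ^ 2)) x := by
    intro x
    by_cases hx : x ∈ b.source
    · rw [indicator_of_mem hx, indicator_of_mem (mem_image_of_mem φ hx)]
    · rw [indicator_of_notMem hx, indicator_of_notMem, zero_mul]
      rintro ⟨y, hy, hyx⟩
      rw [φ.injective hyx] at hy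
      exact hx hy
  rw [lintegral_congr h2, lintegral_indicator b.open_source.measurableSet,
    (hm6 b hb).2 (fun x => F (φ x) * ENNReal.ofReal (kap R φ γ x ^ 2))
      ((hF.comp hφm).mul hk2)]
  refine setLIntegral_congr_fun isOpen_ball.measurableSet fun z hz => ?_
  have hzt : z ∈ b.target := by rw [hb.2]; exact hz
  have hys := b.map_target hzt
  have h1 := hab (b.symm z) hys
  rw [b.right_inv hzt] at h1
  have h3 := kap_mul_rat R hφ hb.1 hb'.1 hys h1.1 (affAt_of_good ha hab hys)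
  have h4 : b'.symm (a * lin γ z + β) = φ (b.symm z) := by
    rw [← h1.2, b'.left_inv h1.1]
  change F (φ (b.symm z)) * ENNReal.ofReal (kap R φ γ (b.symm z) ^ 2) *
    ENNReal.ofReal (rat b (R.ch (b.symm z)) (b.symm z) ^ 2) =
    F (b'.symm (a * lin γ z + β)) * ENNReal.ofReal
      (rat b' (R.ch (b'.symm (a * lin γ z + β))) (b'.symm (a * lin γ z + β)) ^ 2) *
      ENNReal.ofReal (a ^ 2)
  rw [h4, mul_assoc, mul_assoc, ← ENNReal.ofReal_mul (by positivity),
    ← ENNReal.ofReal_mul (by positivity), ← mul_pow, ← mul_pow, h3, mul_comm a]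

end

end Pool.Agent.Helper26.Dil
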