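import Pool.Agent.Helper26.Dil.Aff2
import Pool.Agent.Helper73.Dil.Conn

/-!
Module S_AFF, part 3: the change of the base scale function.
-/

open Topology Set Filter MeasureTheory Metric

namespace Pool.Agent.Helper26.Dil

open Pool.Agent.Helper73.Dil Pool.Agent.Helper73.Dil.DilationSurface

universe u

section
variable {X : Type u} [TopologicalSpace X] {D : DilationSurface X}

/-- the change of the base scale function on the regular part -/
noncomputable def jz (R : D.Ref) (S : D.Scale) (φ : X → X) (γ : G) (x : X) : ℝ :=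
  S.u (R.ch (φ x)) (φ x) - Real.log |kap R φ γ x| - S.u (R.ch x) x

theorem jz_eq (R : D.Ref) (S : D.Scale) {φ : X ≃ₜ X} {γ : G} (hφ : D.IsAffineAut φ γ)
    {e e' : OpenPartialHomeomorph X ℂ} (he : D.IsChart e) (he' : D.IsChart e') {x : X}
    (hx : x ∈ e.source) (hx' : φ x ∈ e'.source) {a : ℝ} (h : AffAt φ γ e e' x a) :
    jz R S φ γ x = S.u e' (φ x) - Real.log |a| - S.u e x := by
  have hxc := he.1 x hx
  have hxc' := he'.1 _ hx'
  have h1 := (sb_RAT X D e (R.ch x) x he (Ref.isChart_ch R x) hx (Ref.mem_ch R hxc))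
  have h2 := (sb_RAT X D e' (R.ch (φ x)) (φ x) he' (Ref.isChart_ch R _) hx' (Ref.mem_ch R hxc'))
  have h3 := S.trans e (R.ch x) he (Ref.isChart_ch R x) x hx (Ref.mem_ch R hxc) _ h1.2.2.2.2
  have h4 := S.trans e' (R.ch (φ x)) he' (Ref.isChart_ch R _) _ hx' (Ref.mem_ch R hxc') _
    h2.2.2.2.2
  have h5 := kap_mul_rat R hφ he he' hx hx' h
  have h6 : Real.log |kap R φ γ x| + Real.log |rat e (R.ch x) x| =
      Real.log |a| + Real.log |rat e' (R.ch (φ x)) (φ x)| := by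
    rw [← Real.log_mul (abs_ne_zero.2 (kap_ne_zero R φ γ x)) (abs_ne_zero.2 h1.1),
      ← Real.log_mul (abs_ne_zero.2 h.1) (abs_ne_zero.2 h2.1), ← abs_mul, ← abs_mul, h5]
  rw [jz, h3, h4]
  linarith

theorem jz_eventually (R : D.Ref) (S : D.Scale) {φ : X ≃ₜ X} {γ : G} (hφ : D.IsAffineAut φ γ)
    {e e' : OpenPartialHomeomorph X ℂ} (he : D.IsChart e) (he' : D.IsChart e') {x : X}
    (hx : x ∈ e.source) (hx' : φ x ∈ e'.source) {a : ℝ} (h : AffAt φ γ e e' x a) :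
    ∀ᶠ y in 𝓝 x, jz R S φ γ y = S.u e' (φ y) - Real.log |a| - S.u e y := by
  have h3 : ∀ᶠ y in 𝓝 x, φ y ∈ e'.source :=
    φ.continuous.continuousAt.eventually (e'.open_source.mem_nhds hx')
  filter_upwards [h.eventually, e.open_source.mem_nhds hx, h3] with y h1 h2 h3
  exact jz_eq R S hφ he he' h2 h3 h1

/-- composition of a smooth function with the automorphism -/
theorem contDiffAt_comp {φ : X ≃ₜ X} {γ : G} {e e' : OpenPartialHomeomorph X ℂ} {x : X}
    (hx : x ∈ e.source) (hx' : φ x ∈ e'.source) {a : ℝ} (h : AffAt φ γ e e' x a) {F : X → ℂ}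
    (hF : ContDiffAt ℝ (⊤ : ℕ∞) (F ∘ e'.symm) (e' (φ x))) :
    ContDiffAt ℝ (⊤ : ℕ∞) ((fun y => F (φ y)) ∘ e.symm) (e x) := by
  obtain ⟨ha, β, h⟩ := h
  have h1 := comp_aff (F := F) (F' := fun y => F (φ y)) hx hx' h (k := 0)
    (Eventually.of_forall fun y => by simp)
  have h2 := h.self_of_nhds
  rw [h2] at hF
  have h3 : ContDiff ℝ (⊤ : ℕ∞) fun w : ℂ => (a : ℂ) * lin γ w + β := by
    have : (fun w : ℂ => (a : ℂ) * lin γ w + β) = fun w => a • linL γ w + β := by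
      funext w
      simp [linL_apply]
    rw [this]
    exact ((linL γ).contDiff.const_smul a).add contDiff_const
  have h4 : ContDiffAt ℝ (⊤ : ℕ∞) ((F ∘ e'.symm) ∘ fun w : ℂ => (a : ℂ) * lin γ w + β) (e x) :=
    ContDiffAt.comp (e x) hF h3.contDiffAt
  refine h4.congr_of_eventuallyEq ?_
  filter_upwards [h1] with w hw
  rw [hw]
  simp

theorem jz_smooth (R : D.Ref) (S : D.Scale) {φ : X ≃ₜ X} {γ : G} (hφ : D.IsAffineAut φ γ)
    {e : OpenPartialHomeomorph X ℂ} (he : D.IsChart e) {x : X} (hx : x ∈ e.source) {j : X → ℝ}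
    (hj : ∀ᶠ y in 𝓝 x, j y = jz R S φ γ y) :
    ContDiffAt ℝ (⊤ : ℕ∞) ((fun y => (j y : ℂ)) ∘ e.symm) (e x) := by
  obtain ⟨e', he', hx'⟩ := exists_chart (regular_map hφ (he.1 x hx))
  obtain ⟨a, h⟩ := exists_affAt hφ he he' hx hx'
  have h1 := jz_eventually R S hφ he he' hx hx' h
  have h2 : ContDiffAt ℝ (⊤ : ℕ∞) (((fun y => ((S.u e' (φ y) : ℝ) : ℂ)) ∘ e.symm)) (e x) :=
    contDiffAt_comp hx hx' h (S.smooth e' he' (φ x) hx')
  have h3 := S.smooth e he x hx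
  have h4 : ContDiffAt ℝ (⊤ : ℕ∞) (fun w => ((fun y => ((S.u e' (φ y) : ℝ) : ℂ)) ∘ e.symm) w -
      ((Real.log |a| : ℝ) : ℂ) - ((fun y => (S.u e y : ℂ)) ∘ e.symm) w) (e x) :=
    (h2.sub contDiffAt_const).sub h3
  refine h4.congr_of_eventuallyEq ?_
  filter_upwards [eventually_symm hx (h1.and hj)] with w hw
  obtain ⟨⟨h5, h6⟩, -⟩ := hw
  simp only [Function.comp_apply]
  rw [h6, h5]
  push_cast
  ring

/-- local constancy near the cone points -/
theorem jz_locConst [T2Space X] (R : D.Ref) (S : D.Scale) {φ : X ≃ₜ X} {γ : G} (hφ : D.IsAffineAut φ γ)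
    {p : X} (hp : p ∈ D.cone) : ∃ c : ℝ, ∀ᶠ y in 𝓝[≠] p, jz R S φ γ y = c := by
  obtain ⟨k, ψ, hψ, hflat⟩ := S.flat p hp
  obtain ⟨k', ψ', hψ', hflat'⟩ := S.flat (φ p) ((hφ.1 p).2 hp)
  have hN : ψ.source ∩ φ ⁻¹' ψ'.source ∈ 𝓝 p :=
    inter_mem (ψ.open_source.mem_nhds hψ.src)
      (φ.continuous.continuousAt.preimage_mem_nhds (ψ'.open_source.mem_nhds hψ'.src))
  obtain ⟨k2, ψ2, hψ2, hsub⟩ := sb_CB X D p hp _ hN
  have hconn := isConnected_coneBall hψ2
  have hloc : ∀ x ∈ ψ2.source \ {p}, ∀ᶠ y in 𝓝 x, jz R S φ γ y = jz R S φ γ x := by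
    rintro x ⟨hx, hxp⟩
    have hxp' : x ≠ p := hxp
    obtain ⟨hx1, hx2⟩ := hsub hx
    have hφxp : φ x ≠ φ p := fun h => hxp' (φ.injective h)
    obtain ⟨hxc, hm⟩ := hψ.model x hx1 hxp'
    obtain ⟨hxc', hm'⟩ := hψ'.model (φ x) hx2 hφxp
    obtain ⟨e, he, hxe⟩ := exists_chart hxc
    obtain ⟨e', he', hxe'⟩ := exists_chart hxc'
    obtain ⟨a, b, ha, hab⟩ := hm e he hxe
    obtain ⟨a', b', ha', hab'⟩ := hm' e' he' hxe'
    obtain ⟨c, hc⟩ := exists_affAt hφ he he' hxe hxe'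
    have key : ∀ y, y ∈ ψ.source → φ y ∈ ψ'.source → y ≠ p → y ∈ e.source → φ y ∈ e'.source →
        AffAt φ γ e e' y c → (∀ᶠ z in 𝓝 y, (a * e z + b) ^ 2 = ψ z ^ k) →
        (∀ᶠ z in 𝓝 (φ y), (a' * e' z + b') ^ 2 = ψ' z ^ k') →
        jz R S φ γ y = - Real.log |a'| - Real.log |c| + Real.log |a| := by
      intro y h1 h2 h3 h4 h5 h6 h7 h8
      rw [jz_eq R S hφ he he' h4 h5 h6, hflat y h1 h3 e he h4 a b ha h7,
        hflat' (φ y) h2 (fun h => h3 (φ.injective h)) e' he' h5 a' b' ha' h8]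
      ring
    have hx0 := key x hx1 hx2 hxp' hxe hxe' hc hab hab'
    have h1 : ∀ᶠ y in 𝓝 x, y ≠ p := by
      have h0 := hψ.model x hx1 hxp'
      have h00 : (D.cone)ᶜ ∈ 𝓝 x := D.cone_finite.isClosed.isOpen_compl.mem_nhds h0.1
      filter_upwards [h00] with y hy hyp
      exact hy (hyp ▸ hp)
    have h2' : ∀ᶠ w in 𝓝 (φ x), w ∈ ψ'.source ∧ w ∈ e'.source ∧
        ∀ᶠ z in 𝓝 w, (a' * e' z + b') ^ 2 = ψ' z ^ k' := by
      filter_upwards [ψ'.open_source.mem_nhds hx2, e'.open_source.mem_nhds hxe',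
        hab'.eventually_nhds] with z h1 h2 h3
      exact ⟨h1, h2, h3⟩
    have h2 : ∀ᶠ y in 𝓝 x, φ y ∈ ψ'.source ∧ φ y ∈ e'.source ∧
        ∀ᶠ z in 𝓝 (φ y), (a' * e' z + b') ^ 2 = ψ' z ^ k' :=
      φ.continuous.continuousAt.eventually h2'
    filter_upwards [h1, h2, ψ.open_source.mem_nhds hx1, e.open_source.mem_nhds hxe,
      hc.eventually, hab.eventually_nhds] with y g1 g2 g3 g4 g5 g6
    rw [hx0]
    exact key y g3 g2.1 g1 g4 g2.2.1 g5 g6 g2.2.2
  obtain ⟨x0, hx0⟩ := hconn.nonempty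
  refine ⟨jz R S φ γ x0, ?_⟩
  have hall : ∀ x ∈ ψ2.source \ {p}, jz R S φ γ x = jz R S φ γ x0 := by
    intro x hx
    refine hconn.isPreconnected.induction₂' (fun y z => jz R S φ γ y = jz R S φ γ z) ?_ ?_ hx hx0
    · intro y hy
      filter_upwards [(hloc y hy).filter_mono nhdsWithin_le_nhds] with z hz
      exact ⟨hz.symm, hz⟩
    · intro y z w _ _ _ h1 h2
      exact h1.trans h2
  filter_upwards [(ψ2.open_source.mem_nhds hψ2.src : ψ2.source ∈ 𝓝 p) |> mem_nhdsWithin_of_mem_nhds,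
    self_mem_nhdsWithin] with y hy hyp
  exact hall y ⟨hy, hyp⟩

/-- the change of the base scale function as a test function -/
theorem exists_j [T2Space X] (R : D.Ref) (S : D.Scale) {φ : X ≃ₜ X} {γ : G}
    (hφ : D.IsAffineAut φ γ) : ∃ j : X → ℝ, Continuous j ∧ D.IsTest (fun x => (j x : ℂ)) ∧
      ∀ x, x ∉ D.cone → j x = jz R S φ γ x := by
  classical
  have hcl := D.cone_finite.isClosed
  let j : X → ℝ := fun x => if h : x ∈ D.cone then (jz_locConst R S hφ h).choose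
    else jz R S φ γ x
  have hj1 : ∀ x, x ∉ D.cone → j x = jz R S φ γ x := fun x hx => by
    simp only [j, dif_neg hx]
  have hj2 : ∀ x, x ∉ D.cone → ∀ᶠ y in 𝓝 x, j y = jz R S φ γ y := fun x hx => by
    filter_upwards [hcl.isOpen_compl.mem_nhds hx] with y hy
    exact hj1 y hy
  have hj3 : ∀ p ∈ D.cone, ∀ᶠ y in 𝓝 p, j y = j p := by
    intro p hp
    have h1 : j p = (jz_locConst R S hφ hp).choose := by simp only [j, dif_pos hp]
    have h2 := (jz_locConst R S hφ hp).choose_spec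
    rw [h1]
    rw [eventually_nhdsWithin_iff] at h2
    have h3 : (D.cone \ {p})ᶜ ∈ 𝓝 p :=
      (D.cone_finite.sdiff.isClosed.isOpen_compl).mem_nhds (by simp)
    filter_upwards [h2, h3] with y hy hy3
    by_cases hyp : y = p
    · rw [hyp, h1]
    · have hyc : y ∉ D.cone := fun h => hy3 ⟨h, hyp⟩
      rw [hj1 y hyc]
      exact hy hyp
  have hsm : ∀ e, D.IsChart e → ∀ x ∈ e.source,
      ContDiffAt ℝ (⊤ : ℕ∞) ((fun y => (j y : ℂ)) ∘ e.symm) (e x) := fun e he x hx =>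
    jz_smooth R S hφ he hx (hj2 x (he.1 x hx))
  refine ⟨j, ?_, ⟨hsm, ?_⟩, hj1⟩
  · rw [continuous_iff_continuousAt]
    intro x
    by_cases hx : x ∈ D.cone
    · have : Tendsto j (𝓝 x) (𝓝 (j x)) := by
        refine tendsto_const_nhds.congr' ?_
        filter_upwards [hj3 x hx] with y hy
        exact hy.symm
      exact this
    · obtain ⟨e, he, hxe⟩ := exists_chart hx
      have h1 : ContinuousAt ((fun y => (j y : ℂ)) ∘ e.symm) (e x) := (hsm e he x hxe).continuousAt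
      have h2 : ContinuousAt (((fun y => (j y : ℂ)) ∘ e.symm) ∘ e) x :=
        ContinuousAt.comp h1 (e.continuousAt hxe)
      have h3 : ContinuousAt (fun y => (j y : ℂ)) x := by
        refine h2.congr ?_
        filter_upwards [e.open_source.mem_nhds hxe] with y hy
        simp only [Function.comp_apply]
        rw [e.left_inv hy]
      have h4 := Complex.continuous_re.continuousAt.comp h3
      exact h4
  · intro p hp
    filter_upwards [hj3 p hp] with y hy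
    rw [hy]

end

end Pool.Agent.Helper26.Dil
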